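import Pool.Agent.N431.Hyp.Defs

namespace N431.Hyp

lemma prop_of_ker {E : Type*} [AddCommGroup E] [Module ℝ E] {f g : E →ₗ[ℝ] ℝ} (hg : g ≠ 0)
    (h : LinearMap.ker f = LinearMap.ker g) : ∃ c : ℝ, c ≠ 0 ∧ f = c • g := by
  obtain ⟨p, hp⟩ : ∃ p, g p ≠ 0 := by
    by_contra hno
    push Not at hno
    exact hg (LinearMap.ext hno)
  have hfp : f p ≠ 0 := by
    intro h0
    apply hp
    have : p ∈ LinearMap.ker f := h0
    rw [h] at this
    exact this
  refine ⟨f p / g p, div_ne_zero hfp hp, LinearMap.ext fun x => ?_⟩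
  have hx : x - (g x / g p) • p ∈ LinearMap.ker g := by
    rw [LinearMap.mem_ker, map_sub, map_smul, smul_eq_mul, div_mul_cancel₀ _ hp, sub_self]
  rw [← h, LinearMap.mem_ker, map_sub, map_smul, smul_eq_mul] at hx
  rw [LinearMap.smul_apply, smul_eq_mul]
  have : f x = g x / g p * f p := by linarith
  rw [this]; ring

variable {d : ℕ} {A : Finset (Submodule ℝ (Fin d → ℝ))}

lemma comp_eq (fn : A → (Fin d → ℝ) →ₗ[ℝ] ℝ) (hfn : ∀ H : A, LinearMap.ker (fn H) = H.1)
    {x : Fin d → ℝ} (hx : x ∈ arrCompl A) :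
    connectedComponentIn (arrCompl A) x = {y | ∀ H, 0 < fn H x * fn H y} := by
  have nz : ∀ y ∈ arrCompl A, ∀ H : A, fn H y ≠ 0 := by
    intro y hy H h0
    apply hy H.1 H.2
    rw [← hfn H]; exact h0
  apply Set.Subset.antisymm
  · intro y hy H
    by_contra hno
    push Not at hno
    have hyc := connectedComponentIn_subset _ _ hy
    have hpc : IsPreconnected (connectedComponentIn (arrCompl A) x) := isPreconnected_connectedComponentIn
    have hcont : ContinuousOn (fn H) (connectedComponentIn (arrCompl A) x) :=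
      (LinearMap.continuous_of_finiteDimensional (fn H)).continuousOn
    have hxc := mem_connectedComponentIn hx
    have n1 := nz x hx H
    have n2 := nz y hyc H
    rcases lt_or_gt_of_ne n1 with h1 | h1
    · have h2 : 0 ≤ fn H y := by
        by_contra h; push Not at h
        have := mul_pos_of_neg_of_neg h1 h
        linarith
      obtain ⟨z, hz, hz0⟩ := hpc.intermediate_value hxc hy hcont ⟨h1.le, h2⟩
      exact nz z (connectedComponentIn_subset _ _ hz) H hz0
    · have h2 : fn H y ≤ 0 := by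
        by_contra h; push Not at h
        have := mul_pos h1 h
        linarith
      obtain ⟨z, hz, hz0⟩ := hpc.intermediate_value hy hxc hcont ⟨h2, h1.le⟩
      exact nz z (connectedComponentIn_subset _ _ hz) H hz0
  · have hconv : Convex ℝ {y | ∀ H, 0 < fn H x * fn H y} := by
      intro y hy z hz a b ha hb hab H
      have h1 := hy H
      have h2 := hz H
      rw [map_add, map_smul, map_smul, smul_eq_mul, smul_eq_mul]
      have e : fn H x * (a * fn H y + b * fn H z) = a * (fn H x * fn H y) + b * (fn H x * fn H z) := by ring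
      rw [e]
      rcases eq_or_lt_of_le ha with h | h
      · have hb1 : b = 1 := by linarith
        rw [← h, hb1]; linarith
      · have := mul_pos h h1
        have := mul_nonneg hb h2.le
        linarith
    apply hconv.isPreconnected.subset_connectedComponentIn
    · intro H
      exact mul_self_pos.2 (nz x hx H)
    · intro y hy H hH hyH
      have := hy ⟨H, hH⟩
      have h0 : fn ⟨H, hH⟩ y = 0 := by
        have : y ∈ LinearMap.ker (fn ⟨H, hH⟩) := by rw [hfn]; exact hyH
        exact this
      rw [h0, mul_zero] at this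
      exact lt_irrefl _ this

/-- a point of a region -/
noncomputable def pt (R : {R : Set (Fin d → ℝ) // IsRegion A R}) : Fin d → ℝ := R.2.choose

lemma pt_mem (R : {R : Set (Fin d → ℝ) // IsRegion A R}) : pt R ∈ arrCompl A := R.2.choose_spec.1

lemma pt_eq (R : {R : Set (Fin d → ℝ) // IsRegion A R}) :
    R.1 = connectedComponentIn (arrCompl A) (pt R) := R.2.choose_spec.2

lemma pt_mem' (R : {R : Set (Fin d → ℝ) // IsRegion A R}) : pt R ∈ R.1 := by
  have := mem_connectedComponentIn (pt_mem R)
  rwa [← pt_eq R] at this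

open Classical in
/-- sign vector of a region -/
noncomputable def sv (fn : A → (Fin d → ℝ) →ₗ[ℝ] ℝ) (R : {R : Set (Fin d → ℝ) // IsRegion A R}) : A → Bool :=
  fun H => decide (0 < fn H (pt R))

section
variable (fn : A → (Fin d → ℝ) →ₗ[ℝ] ℝ) (hfn : ∀ H : A, LinearMap.ker (fn H) = H.1)
include hfn

lemma fn_ne {x : Fin d → ℝ} (hx : x ∈ arrCompl A) (H : A) : fn H x ≠ 0 := by
  intro h0
  apply hx H.1 H.2
  rw [← hfn H]; exact h0

lemma reg_sub (R : {R : Set (Fin d → ℝ) // IsRegion A R}) : R.1 ⊆ arrCompl A := by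
  rw [pt_eq R]; exact connectedComponentIn_subset _ _

lemma sv_true (R : {R : Set (Fin d → ℝ) // IsRegion A R}) {x : Fin d → ℝ} (hx : x ∈ R.1) (H : A) :
    sv fn R H = true ↔ 0 < fn H x := by
  unfold sv
  rw [decide_eq_true_iff]
  rw [pt_eq R, comp_eq fn hfn (pt_mem R)] at hx
  have := hx H
  constructor
  · intro h; exact (pos_iff_pos_of_mul_pos this).1 h
  · intro h; exact (pos_iff_pos_of_mul_pos this).2 h

lemma sv_false (R : {R : Set (Fin d → ℝ) // IsRegion A R}) {x : Fin d → ℝ} (hx : x ∈ R.1) (H : A) :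
    sv fn R H = false ↔ fn H x < 0 := by
  have h1 := sv_true fn hfn R hx H
  have h2 := fn_ne fn hfn (reg_sub fn hfn R hx) H
  constructor
  · intro h
    rw [h] at h1
    have : ¬ 0 < fn H x := fun h' => absurd (h1.2 h') (by decide)
    exact lt_of_le_of_ne (not_lt.1 this) h2
  · intro h
    cases hh : sv fn R H
    · rfl
    · have := h1.1 hh; linarith

/-- sign vectors determine regions -/
lemma sv_inj {R R' : {R : Set (Fin d → ℝ) // IsRegion A R}} (h : sv fn R = sv fn R') : R = R' := by
  apply Subtype.ext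
  rw [pt_eq R, pt_eq R']
  apply connectedComponentIn_eq
  rw [comp_eq fn hfn (pt_mem R)]
  intro H
  cases hh : sv fn R H
  · have h1 := (sv_false fn hfn R (pt_mem' R) H).1 hh
    rw [h] at hh
    have h2 := (sv_false fn hfn R' (pt_mem' R') H).1 hh
    exact mul_pos_of_neg_of_neg h1 h2
  · have h1 := (sv_true fn hfn R (pt_mem' R) H).1 hh
    rw [h] at hh
    have h2 := (sv_true fn hfn R' (pt_mem' R') H).1 hh
    exact mul_pos h1 h2

lemma fn_ne_zero (R : {R : Set (Fin d → ℝ) // IsRegion A R}) (H : A) : fn H ≠ 0 := by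
  intro h
  have := fn_ne fn hfn (pt_mem R) H
  rw [h] at this
  exact this rfl

/-- the sign vectors of two regions differ at `H` iff the values of a functional have opposite signs -/
lemma sv_ne_iff {R R' : {R : Set (Fin d → ℝ) // IsRegion A R}} {x y : Fin d → ℝ} (hx : x ∈ R.1)
    (hy : y ∈ R'.1) {f : (Fin d → ℝ) →ₗ[ℝ] ℝ} (H : A) (hf : LinearMap.ker f = H.1) :
    sv fn R H ≠ sv fn R' H ↔ f x * f y < 0 := by
  obtain ⟨c, hc, rfl⟩ := prop_of_ker (fn_ne_zero fn hfn R H) (hf.trans (hfn H).symm)
  have e : (c • fn H) x * (c • fn H) y = (c * c) * (fn H x * fn H y) := by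
    simp only [LinearMap.smul_apply, smul_eq_mul]; ring
  have hcc : 0 < c * c := mul_self_pos.2 hc
  rw [e]
  have key : sv fn R H ≠ sv fn R' H ↔ fn H x * fn H y < 0 := by
    cases h1 : sv fn R H <;> cases h2 : sv fn R' H
    · have := (sv_false fn hfn R hx H).1 h1
      have := (sv_false fn hfn R' hy H).1 h2
      constructor
      · intro h; exact absurd rfl h
      · intro h; have := mul_pos_of_neg_of_neg ‹fn H x < 0› ‹fn H y < 0›; linarith
    · have := (sv_false fn hfn R hx H).1 h1
      have := (sv_true fn hfn R' hy H).1 h2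
      constructor
      · intro _; exact mul_neg_of_neg_of_pos ‹fn H x < 0› ‹0 < fn H y›
      · intro _; decide
    · have := (sv_true fn hfn R hx H).1 h1
      have := (sv_false fn hfn R' hy H).1 h2
      constructor
      · intro _; exact mul_neg_of_pos_of_neg ‹0 < fn H x› ‹fn H y < 0›
      · intro _; decide
    · have := (sv_true fn hfn R hx H).1 h1
      have := (sv_true fn hfn R' hy H).1 h2
      constructor
      · intro h; exact absurd rfl h
      · intro h; have := mul_pos ‹0 < fn H x› ‹0 < fn H y›; linarith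
  rw [key]
  constructor
  · intro h; exact mul_neg_of_pos_of_neg hcc h
  · intro h; exact (neg_iff_neg_of_mul_pos (by nlinarith : 0 < (c * c * (fn H x * fn H y)) * (fn H x * fn H y))).1 h

lemma separates_iff (R R' : {R : Set (Fin d → ℝ) // IsRegion A R}) (H : A) :
    Separates H.1 R.1 R'.1 ↔ sv fn R H ≠ sv fn R' H := by
  constructor
  · rintro ⟨f, h1, h2, h3⟩
    rw [sv_ne_iff fn hfn (pt_mem' R) (pt_mem' R') H h1]
    exact mul_neg_of_pos_of_neg (h2 _ (pt_mem' R)) (h3 _ (pt_mem' R'))
  · intro h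
    cases h1 : sv fn R H <;> cases h2 : sv fn R' H
    · rw [h1, h2] at h; exact absurd rfl h
    · apply Separates.symm
      exact ⟨fn H, hfn H, fun x hx => (sv_true fn hfn R' hx H).1 h2, fun x hx => (sv_false fn hfn R hx H).1 h1⟩
    · exact ⟨fn H, hfn H, fun x hx => (sv_true fn hfn R hx H).1 h1, fun x hx => (sv_false fn hfn R' hx H).1 h2⟩
    · rw [h1, h2] at h; exact absurd rfl h

lemma tope_adj_iff (R R' : {R : Set (Fin d → ℝ) // IsRegion A R}) :
    (topeGraph A).Adj R R' ↔ hammingDist (sv fn R) (sv fn R') = 1 := by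
  unfold hammingDist
  rw [Finset.card_eq_one]
  constructor
  · rintro ⟨H, ⟨h1, h2⟩, h3⟩
    refine ⟨⟨H, h1⟩, ?_⟩
    ext H'
    simp only [Finset.mem_filter, Finset.mem_univ, true_and, Finset.mem_singleton]
    rw [← separates_iff fn hfn]
    constructor
    · intro h; exact Subtype.ext (h3 H'.1 ⟨H'.2, h⟩)
    · rintro rfl; exact h2
  · rintro ⟨H, hH⟩
    have key : ∀ H' : A, sv fn R H' ≠ sv fn R' H' ↔ H' = H := by
      intro H'
      have := congrArg (fun s => H' ∈ s) hH
      simpa using this
    refine ⟨H.1, ⟨H.2, (separates_iff fn hfn R R' H).2 ((key H).2 rfl)⟩, ?_⟩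
    rintro H' ⟨h1, h2⟩
    have := (key ⟨H', h1⟩).1 ((separates_iff fn hfn R R' ⟨H', h1⟩).1 h2)
    rw [← this]

end

end N431.Hyp
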