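import Mathlib

namespace N431.Hyp

variable {ι : Type*} [DecidableEq ι]

/-- flip coordinate `l` -/
def flip (x : ι → Bool) (l : ι) : ι → Bool := Function.update x l (!x l)

@[simp] lemma flip_same (x : ι → Bool) (l : ι) : flip x l l = !x l := by simp [flip]
lemma flip_ne {x : ι → Bool} {l m : ι} (h : m ≠ l) : flip x l m = x m := by simp [flip, h]

/-- isometric (local form): between two distinct members there is a member one step closer -/
def Isom (S : Set (ι → Bool)) : Prop :=
  ∀ x ∈ S, ∀ y ∈ S, x ≠ y → ∃ l, x l ≠ y l ∧ flip x l ∈ S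

/-- no 3-cube minus a vertex after restricting to a face and projecting to three coordinates -/
def NoQ (S : Set (ι → Bool)) : Prop :=
  ∀ (J : Finset ι) (e : ι → Bool) (i j k : ι), i ∉ J → j ∉ J → k ∉ J → i ≠ j → i ≠ k → j ≠ k →
    (∀ a b c, (a, b, c) ≠ (e i, e j, e k) →
      ∃ x ∈ S, (∀ m ∈ J, x m = e m) ∧ x i = a ∧ x j = b ∧ x k = c) →
    ∃ x ∈ S, (∀ m ∈ J, x m = e m) ∧ x i = e i ∧ x j = e j ∧ x k = e k

section fin
variable [Fintype ι]

lemma proj_isom {S : Set (ι → Bool)} (hS : Isom S) (T : Finset ι) :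
    ∀ (n : ℕ) (x y : ι → Bool), x ∈ S → y ∈ S → hammingDist x y = n → (∃ i ∈ T, x i ≠ y i) →
      ∃ z ∈ S, ∃ i ∈ T, x i ≠ y i ∧ z i = y i ∧ ∀ m ∈ T, m ≠ i → z m = x m := by
  intro n
  induction n using Nat.strong_induction_on with
  | _ n ih =>
    intro x y hx hy hn ⟨i, hi, hxy⟩
    have hne : x ≠ y := fun h => hxy (by rw [h])
    obtain ⟨l, hl, hfl⟩ := hS x hx y hy hne
    by_cases hlT : l ∈ T
    · refine ⟨flip x l, hfl, l, hlT, hl, ?_, fun m _ hm => flip_ne hm⟩
      rw [flip_same]
      cases h1 : x l <;> cases h2 : y l <;> simp_all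
    · have hlt : hammingDist (flip x l) y < hammingDist x y := by
        unfold hammingDist
        apply Finset.card_lt_card
        refine ⟨?_, ?_⟩
        · intro m
          simp only [Finset.mem_filter, Finset.mem_univ, true_and]
          intro hm
          by_cases hml : m = l
          · subst hml; exact hl
          · rwa [flip_ne hml] at hm
        · intro hsub
          have : l ∈ Finset.univ.filter (fun i => flip x l i ≠ y i) := hsub (by simp [hl])
          simp only [Finset.mem_filter, Finset.mem_univ, true_and, flip_same] at this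
          apply this
          cases h1 : x l <;> cases h2 : y l <;> simp_all
      have hil : i ≠ l := fun h => hlT (h ▸ hi)
      obtain ⟨z, hz, j, hj, h1, h2, h3⟩ := ih _ (hn ▸ hlt) (flip x l) y hfl hy rfl
        ⟨i, hi, by rw [flip_ne hil]; exact hxy⟩
      have hjl : j ≠ l := fun h => hlT (h ▸ hj)
      refine ⟨z, hz, j, hj, by rwa [flip_ne hjl] at h1, h2, fun m hm hmj => ?_⟩
      have hml : m ≠ l := fun h => hlT (h ▸ hm)
      rw [h3 m hm hmj, flip_ne hml]

/-- If `x`, `y` agree on `T` except at `i`, `j` where they differ, some member lies between. -/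
lemma between {S : Set (ι → Bool)} (hS : Isom S) (T : Finset ι) {x y : ι → Bool}
    (hx : x ∈ S) (hy : y ∈ S) {i j : ι} (hi : i ∈ T) (hij : i ≠ j)
    (hxi : x i ≠ y i) (hxj : x j ≠ y j) (hag : ∀ m ∈ T, m ≠ i → m ≠ j → x m = y m) :
    ∃ z ∈ S, (∀ m ∈ T, m ≠ i → m ≠ j → z m = x m) ∧
      ((z i = y i ∧ (j ∈ T → z j = x j)) ∨ (j ∈ T ∧ z i = x i ∧ z j = y j)) := by
  obtain ⟨z, hz, k, hk, h1, h2, h3⟩ := proj_isom hS T _ x y hx hy rfl ⟨i, hi, hxi⟩
  by_cases hki : k = i
  · subst hki
    exact ⟨z, hz, fun m hm hmi _ => h3 m hm hmi, Or.inl ⟨h2, fun hj => h3 j hj (Ne.symm hij)⟩⟩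
  · by_cases hkj : k = j
    · subst hkj
      exact ⟨z, hz, fun m hm _ hmj => h3 m hm hmj, Or.inr ⟨hk, h3 i hi (Ne.symm hki), h2⟩⟩
    · exact absurd (hag k hk hki hkj) h1

/-- pattern on three coordinates is present -/
def P3 (S : Set (ι → Bool)) (i j k : ι) (a b c : Bool) : Prop := ∃ x ∈ S, x i = a ∧ x j = b ∧ x k = c
/-- pattern on two coordinates is present -/
def P2 (S : Set (ι → Bool)) (i j : ι) (a b : Bool) : Prop := ∃ x ∈ S, x i = a ∧ x j = b

/-- all four patterns present -/
def Cross (S : Set (ι → Bool)) (i j : ι) : Prop := ∀ a b, P2 S i j a b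

lemma Cross.ne {S : Set (ι → Bool)} {i j : ι} (h : Cross S i j) : i ≠ j := by
  rintro rfl
  obtain ⟨x, _, h1, h2⟩ := h true false
  rw [h1] at h2; exact absurd h2 (by decide)

lemma Cross.symm {S : Set (ι → Bool)} {i j : ι} (h : Cross S i j) : Cross S j i := by
  intro a b
  obtain ⟨x, hx, h1, h2⟩ := h b a
  exact ⟨x, hx, h2, h1⟩

/-- concurrent triple: pairwise crossing and some pattern missing -/
structure C6 (S : Set (ι → Bool)) (i j k : ι) : Prop where
  ij : Cross S i j
  ik : Cross S i k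
  jk : Cross S j k
  miss : ∃ a b c, ¬ P3 S i j k a b c

/-- key dichotomy -/
lemma triple {S : Set (ι → Bool)} (hS : Isom S) (hQ : NoQ S) {i j k : ι}
    (hij : Cross S i j) (hik : Cross S i k) (hjk : Cross S j k) {a b c : Bool}
    (hm : ¬ P3 S i j k a b c) :
    P3 S i j k (!a) b c ∧ P3 S i j k a (!b) c ∧ P3 S i j k a b (!c) ∧
    P3 S i j k (!a) (!b) c ∧ P3 S i j k (!a) b (!c) ∧ P3 S i j k a (!b) (!c) ∧
    ¬ P3 S i j k (!a) (!b) (!c) := by
  have nij := hij.ne
  have nik := hik.ne
  have njk := hjk.ne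
  have A1 : P3 S i j k (!a) b c := by
    obtain ⟨x, hx, h1, h2⟩ := hjk b c
    refine ⟨x, hx, ?_, h1, h2⟩
    by_contra h
    exact hm ⟨x, hx, by cases hh : x i <;> cases a <;> simp_all, h1, h2⟩
  have A2 : P3 S i j k a (!b) c := by
    obtain ⟨x, hx, h1, h2⟩ := hik a c
    refine ⟨x, hx, h1, ?_, h2⟩
    by_contra h
    exact hm ⟨x, hx, h1, by cases hh : x j <;> cases b <;> simp_all, h2⟩
  have A3 : P3 S i j k a b (!c) := by
    obtain ⟨x, hx, h1, h2⟩ := hij a b
    refine ⟨x, hx, h1, h2, ?_⟩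
    by_contra h
    exact hm ⟨x, hx, h1, h2, by cases hh : x k <;> cases c <;> simp_all⟩
  have B1 : P3 S i j k (!a) (!b) c := by
    obtain ⟨x, hx, h1, h2, h3⟩ := A1
    obtain ⟨y, hy, h4, h5, h6⟩ := A2
    obtain ⟨z, hz, h7, h8⟩ := between hS {i, j, k} hx hy (i := i) (j := j) (by simp) nij
      (by rw [h1, h4]; cases a <;> simp) (by rw [h2, h5]; cases b <;> simp)
      (by intro m hmT h h'; simp only [Finset.mem_insert, Finset.mem_singleton] at hmT
          rcases hmT with rfl | rfl | rfl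
          · exact absurd rfl h
          · exact absurd rfl h'
          · rw [h3, h6])
    have hzk : z k = c := by rw [h7 k (by simp) nik.symm njk.symm, h3]
    rcases h8 with ⟨h9, h10⟩ | ⟨_, h9, h10⟩
    · exact absurd ⟨z, hz, by rw [h9, h4], by rw [h10 (by simp), h2], hzk⟩ hm
    · exact ⟨z, hz, by rw [h9, h1], by rw [h10, h5], hzk⟩
  have B2 : P3 S i j k (!a) b (!c) := by
    obtain ⟨x, hx, h1, h2, h3⟩ := A1
    obtain ⟨y, hy, h4, h5, h6⟩ := A3
    obtain ⟨z, hz, h7, h8⟩ := between hS {i, j, k} hx hy (i := i) (j := k) (by simp) nik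
      (by rw [h1, h4]; cases a <;> simp) (by rw [h3, h6]; cases c <;> simp)
      (by intro m hmT h h'; simp only [Finset.mem_insert, Finset.mem_singleton] at hmT
          rcases hmT with rfl | rfl | rfl
          · exact absurd rfl h
          · rw [h2, h5]
          · exact absurd rfl h')
    have hzk : z j = b := by rw [h7 j (by simp) nij.symm njk, h2]
    rcases h8 with ⟨h9, h10⟩ | ⟨_, h9, h10⟩
    · exact absurd ⟨z, hz, by rw [h9, h4], hzk, by rw [h10 (by simp), h3]⟩ hm
    · exact ⟨z, hz, by rw [h9, h1], hzk, by rw [h10, h6]⟩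
  have B3 : P3 S i j k a (!b) (!c) := by
    obtain ⟨x, hx, h1, h2, h3⟩ := A2
    obtain ⟨y, hy, h4, h5, h6⟩ := A3
    obtain ⟨z, hz, h7, h8⟩ := between hS {i, j, k} hx hy (i := j) (j := k) (by simp) njk
      (by rw [h2, h5]; cases b <;> simp) (by rw [h3, h6]; cases c <;> simp)
      (by intro m hmT h h'; simp only [Finset.mem_insert, Finset.mem_singleton] at hmT
          rcases hmT with rfl | rfl | rfl
          · rw [h1, h4]
          · exact absurd rfl h
          · exact absurd rfl h')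
    have hzk : z i = a := by rw [h7 i (by simp) nij nik, h1]
    rcases h8 with ⟨h9, h10⟩ | ⟨_, h9, h10⟩
    · exact absurd ⟨z, hz, hzk, by rw [h9, h5], by rw [h10 (by simp), h3]⟩ hm
    · exact ⟨z, hz, hzk, by rw [h9, h2], by rw [h10, h6]⟩
  refine ⟨A1, A2, A3, B1, B2, B3, ?_⟩
  intro hC
  apply hm
  obtain ⟨x, hx, _, h⟩ := hQ ∅ (fun m => if m = i then a else if m = j then b else c) i j k
    (by simp) (by simp) (by simp) nij nik njk (by
      intro a' b' c' hne
      simp only [if_true, if_neg nij.symm, if_neg nik.symm, if_neg njk.symm] at hne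
      have key : P3 S i j k a' b' c' := by
        rcases Bool.eq_or_eq_not a' a with rfl | rfl <;> rcases Bool.eq_or_eq_not b' b with rfl | rfl <;>
          rcases Bool.eq_or_eq_not c' c with rfl | rfl <;> first | assumption | exact absurd rfl hne
      obtain ⟨x, hx, h⟩ := key
      exact ⟨x, hx, by simp, h⟩)
  simp only [if_true, if_neg nij.symm, if_neg nik.symm, if_neg njk.symm] at h
  exact ⟨x, hx, h⟩

end fin
end N431.Hyp
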