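import Pool.Agent.N431.Hyp.Opp

namespace N431.Hyp

variable {ι : Type*} [DecidableEq ι] [Fintype ι]

set_option linter.unusedSectionVars false

variable {S : Set (ι → Bool)}

/-- sign of a Boolean -/
def sg (b : Bool) : ℝ := if b then 1 else -1

lemma sg_not (b : Bool) : sg (!b) = - sg b := by cases b <;> simp [sg]
lemma sg_sq (b : Bool) : sg b * sg b = 1 := by cases b <;> simp [sg]
lemma sg_ne (b : Bool) : sg b ≠ 0 := by cases b <;> simp [sg]

/-- determinant in the plane -/
def dt (p q : ℝ × ℝ) : ℝ := p.1 * q.2 - p.2 * q.1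

/-- all triples of distinct elements are concurrent -/
def Clq (S : Set (ι → Bool)) (P : Finset ι) : Prop :=
  ∀ i ∈ P, ∀ j ∈ P, ∀ k ∈ P, i ≠ j → i ≠ k → j ≠ k → C6 S i j k

/-- `s`, `t` bound the sector of `v` in the pencil `P` realised by `u` -/
structure Bnd (S : Set (ι → Bool)) (P : Finset ι) (u : ι → ℝ × ℝ) (v : ι → Bool) (s t : ι) : Prop where
  hs : s ∈ P
  ht : t ∈ P
  hst : s ≠ t
  det : dt (u s) (u t) ≠ 0
  oth : ∀ i ∈ P, i ≠ s → i ≠ t → Opp S v s t i ∧ ∃ α β : ℝ, 1 ≤ α ∧ 1 ≤ β ∧
    sg (v i) • u i = α • (sg (v s) • u s) + β • (sg (v t) • u t)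

lemma exists_adj (hS : Isom S) (P : Finset ι) (l : ι) :
    ∀ (n : ℕ) (x y : ι → Bool), x ∈ S → y ∈ S → x l ≠ y l → (P.filter (fun m => x m ≠ y m)).card = n →
      l ∉ P → ∃ x' ∈ S, ∃ y' ∈ S, (∀ m ∈ P, x' m = y' m) ∧ y' l = !x' l := by
  intro n
  induction n using Nat.strong_induction_on with
  | _ n ih =>
    intro x y hx hy hl hn hlP
    obtain ⟨z, hz, i, hi, h1, h2, h3⟩ := proj_isom hS (insert l P) _ x y hx hy rfl
      ⟨l, by simp, hl⟩
    by_cases hil : i = l
    · subst hil
      refine ⟨x, hx, z, hz, fun m hm => ?_, ?_⟩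
      · exact (h3 m (by simp [hm]) (fun h => hlP (h ▸ hm))).symm
      · rw [h2]; exact bne_ (Ne.symm hl)
    · have hiP : i ∈ P := by simpa [hil] using hi
      have hzl : z l = x l := h3 l (by simp) (Ne.symm hil)
      refine ih _ ?_ z y hz hy (by rw [hzl]; exact hl) rfl hlP
      rw [← hn]
      apply Finset.card_lt_card
      refine ⟨?_, ?_⟩
      · intro m
        simp only [Finset.mem_filter]
        rintro ⟨hm, hne⟩
        refine ⟨hm, ?_⟩
        by_cases hmi : m = i
        · subst hmi; exact h1
        · rwa [h3 m (by simp [hm]) hmi] at hne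
      · intro hsub
        have := hsub (Finset.mem_filter.2 ⟨hiP, h1⟩)
        simp only [Finset.mem_filter] at this
        exact this.2 h2

section
variable (hS : Isom S) (hQ : NoQ S)
include hS hQ

/-- realisation of a pencil by vectors of the plane -/
theorem exists_fan (P : Finset ι) : Clq S P → 2 ≤ P.card →
    ∃ u : ι → ℝ × ℝ, ∀ v ∈ S, ∃ s t, Bnd S P u v s t := by
  induction P using Finset.induction_on with
  | empty => intro _ h; simp at h
  | insert l P hlP ih =>
    intro hclq hcard
    by_cases hP2 : P.card < 2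
    · -- base case : card (insert l P) = 2
      have h2 : (insert l P).card = 2 := by
        rw [Finset.card_insert_of_notMem hlP] at hcard ⊢; omega
      obtain ⟨a, b, hab, hPab⟩ := Finset.card_eq_two.1 h2
      rw [hPab]
      refine ⟨fun i => if i = a then (1, 0) else (0, 1), fun v _ => ⟨a, b, by simp, by simp, hab, ?_, ?_⟩⟩
      · simp [dt, hab.symm]
      · intro i hi h1 h2
        simp only [Finset.mem_insert, Finset.mem_singleton] at hi
        rcases hi with rfl | rfl
        · exact absurd rfl h1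
        · exact absurd rfl h2
    push Not at hP2
    have hclqP : Clq S P := fun i hi j hj k hk => hclq i (by simp [hi]) j (by simp [hj]) k (by simp [hk])
    obtain ⟨u, hu⟩ := ih hclqP hP2
    -- two members of S that agree on P and differ at l
    obtain ⟨a0, b0, ha0, hb0, hab0⟩ := Finset.one_lt_card_iff.1 hP2
    have hl0 : ∀ i ∈ P, i ≠ l := fun i hi h => hlP (h ▸ hi)
    have c0 : C6 S a0 b0 l := hclq a0 (by simp [ha0]) b0 (by simp [hb0]) l (by simp) hab0 (hl0 _ ha0) (hl0 _ hb0)
    obtain ⟨x0, hx0, _, hx0l⟩ := c0.ik true true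
    obtain ⟨y0, hy0, _, hy0l⟩ := c0.ik true false
    obtain ⟨w, hw, w', hw', hww, hwl⟩ := exists_adj hS P l _ x0 y0 hx0 hy0 (by rw [hx0l, hy0l]; simp) rfl hlP
    obtain ⟨a, b, hB⟩ := hu w hw
    have haP := hB.hs
    have hbP := hB.ht
    have hab := hB.hst
    have hal := hl0 a haP
    have hbl := hl0 b hbP
    have cabl : C6 S a b l := hclq a (by simp [haP]) b (by simp [hbP]) l (by simp) hab hal hbl
    obtain ⟨q, r, hm⟩ := cabl.norm hS hQ (w a)
    have hq : q = !w b := by
      apply bne_
      rintro rfl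
      apply hm
      rcases Bool.eq_or_eq_not r (w l) with rfl | rfl
      · exact ⟨w, hw, rfl, rfl, rfl⟩
      · exact ⟨w', hw', (hww a haP).symm, (hww b hbP).symm, hwl⟩
    subst hq
    have hm' := (triple hS hQ cabl.ij cabl.ik cabl.jk hm).2.2.2.2.2.2
    rw [Bool.not_not] at hm'
    -- facts on l
    set A : ℝ × ℝ := sg (w a) • u a with hA
    set B : ℝ × ℝ := sg (w b) • u b with hBdef
    set ul : ℝ × ℝ := sg (!r) • (A - B) with hul
    set u' : ι → ℝ × ℝ := Function.update u l ul with hu'
    have u'l : u' l = ul := by simp [hu']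
    have u'i : ∀ i ∈ P, u' i = u i := fun i hi => by simp [hu', hl0 i hi]
    have dab : dt (u a) (u b) ≠ 0 := hB.det
    refine ⟨u', fun v hv => ?_⟩
    -- common analysis according to agreement of v and w at a, b
    have same : ∀ ρ : Bool, (∀ i ∈ P, i ≠ a → i ≠ b → Opp S v a b i ∧ ∃ α β : ℝ, 1 ≤ α ∧ 1 ≤ β ∧
        sg (v i) • u i = α • (sg (v a) • u a) + β • (sg (v b) • u b)) →
        ¬ P3 S a b l (v a) (!v b) ρ → ¬ P3 S a b l (!v a) (v b) (!ρ) →
        ul = sg (!ρ) • (sg (v a) • u a - sg (v b) • u b) → ∃ s t, Bnd S (insert l P) u' v s t := by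
      intro ρ hoth hmA hmB hulρ
      rcases Bool.eq_or_eq_not (v l) ρ with hvl | hvl
      · -- v l = ρ : pair (a, l)
        have hsl : sg (v l) • u' l = sg (v b) • u b - sg (v a) • u a := by
          rw [u'l, hulρ, hvl, smul_smul, sg_not, mul_neg, sg_sq, neg_smul, one_smul, neg_sub]
        refine ⟨a, l, by simp [haP], by simp, hal, ?_, ?_⟩
        · rw [u'i a haP, u'l, hulρ]
          intro h0
          apply dab
          simp only [dt, Prod.smul_fst, Prod.smul_snd, Prod.fst_sub, Prod.snd_sub, smul_eq_mul] at h0 ⊢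
          have : sg (!ρ) * sg (v b) * ((u a).1 * (u b).2 - (u a).2 * (u b).1) = 0 := by linarith
          rcases mul_eq_zero.1 this with h | h
          · rcases mul_eq_zero.1 h with h | h
            · exact absurd h (sg_ne _)
            · exact absurd h (sg_ne _)
          · exact h
        · intro i hi hia hil
          have hiP : i ∈ P := by simpa [hil] using hi
          rw [u'i i hiP, u'i a haP, hsl]
          by_cases hib : i = b
          · subst hib
            refine ⟨⟨cabl.perm2, ?_⟩, 1, 1, le_rfl, le_rfl, ?_⟩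
            · rintro ⟨x, hx, x1, x2, x3⟩
              exact hmA ⟨x, hx, x1, x3, by rw [x2, hvl]⟩
            · rw [one_smul, one_smul]; abel
          · obtain ⟨ho, α, β, hα, hβ, he⟩ := hoth i hiP hia hib
            refine ⟨⟨hclq a (by simp [haP]) l (by simp) i (by simp [hiP]) hal (Ne.symm hia)
              (Ne.symm hil), ?_⟩, α + β, β, by linarith, hβ, ?_⟩
            · rintro ⟨x, hx, x1, x2, x3⟩
              rcases Bool.eq_or_eq_not (x b) (v b) with h | h
              · have := ho.imp x hx x1 h
                rw [x3] at this; cases h1 : v i <;> rw [h1] at this <;> simp at this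
              · exact hmA ⟨x, hx, x1, h, by rw [x2, hvl]⟩
            · rw [he]; module
      · -- v l = !ρ : pair (l, b)
        have hsl : sg (v l) • u' l = sg (v a) • u a - sg (v b) • u b := by
          rw [u'l, hulρ, hvl, smul_smul, sg_sq, one_smul]
        refine ⟨l, b, by simp, by simp [hbP], Ne.symm hbl, ?_, ?_⟩
        · rw [u'i b hbP, u'l, hulρ]
          intro h0
          apply dab
          simp only [dt, Prod.smul_fst, Prod.smul_snd, Prod.fst_sub, Prod.snd_sub, smul_eq_mul] at h0 ⊢
          have : sg (!ρ) * sg (v a) * ((u a).1 * (u b).2 - (u a).2 * (u b).1) = 0 := by linarith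
          rcases mul_eq_zero.1 this with h | h
          · rcases mul_eq_zero.1 h with h | h
            · exact absurd h (sg_ne _)
            · exact absurd h (sg_ne _)
          · exact h
        · intro i hi hil hib
          have hiP : i ∈ P := by simpa [hil] using hi
          rw [u'i i hiP, u'i b hbP, hsl]
          by_cases hia : i = a
          · subst hia
            refine ⟨⟨cabl.rot'.rot'.perm2, ?_⟩, 1, 1, le_rfl, le_rfl, ?_⟩
            · rintro ⟨x, hx, x1, x2, x3⟩
              exact hmB ⟨x, hx, x3, x2, by rw [x1, hvl]⟩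
            · rw [one_smul, one_smul]; abel
          · obtain ⟨ho, α, β, hα, hβ, he⟩ := hoth i hiP hia hib
            refine ⟨⟨hclq l (by simp) b (by simp [hbP]) i (by simp [hiP]) (Ne.symm hbl) (Ne.symm hil)
              (Ne.symm hib), ?_⟩, α, α + β, hα, by linarith, ?_⟩
            · rintro ⟨x, hx, x1, x2, x3⟩
              rcases Bool.eq_or_eq_not (x a) (v a) with h | h
              · have := ho.imp x hx h x2
                rw [x3] at this; cases h1 : v i <;> rw [h1] at this <;> simp at this
              · exact hmB ⟨x, hx, h, x2, by rw [x1, hvl]⟩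
            · rw [he]; module
    have diff : (∀ x ∈ S, x a = v a → x b = v b → x l = v l) →
        sg (v l) • ul = sg (v a) • u a + sg (v b) • u b → ∃ s t, Bnd S (insert l P) u' v s t := by
      intro himp hsl
      obtain ⟨s, t, hst⟩ := hu v hv
      have hsP := hst.hs
      have htP := hst.ht
      have key : ∀ i ∈ P, ∃ α β : ℝ, sg (v i) • u i = α • (sg (v s) • u s) + β • (sg (v t) • u t) ∧
          ((i = s ∧ α = 1 ∧ β = 0) ∨ (i = t ∧ α = 0 ∧ β = 1) ∨ (1 ≤ α ∧ 1 ≤ β)) := by
        intro i hi
        by_cases h1 : i = s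
        · subst h1; exact ⟨1, 0, by simp, Or.inl ⟨rfl, rfl, rfl⟩⟩
        by_cases h2 : i = t
        · subst h2; exact ⟨0, 1, by simp, Or.inr (Or.inl ⟨rfl, rfl, rfl⟩)⟩
        obtain ⟨_, α, β, hα, hβ, he⟩ := hst.oth i hi h1 h2
        exact ⟨α, β, he, Or.inr (Or.inr ⟨hα, hβ⟩)⟩
      refine ⟨s, t, by simp [hsP], by simp [htP], hst.hst, ?_, ?_⟩
      · rw [u'i s hsP, u'i t htP]; exact hst.det
      · intro i hi his hit
        rw [u'i s hsP, u'i t htP]
        by_cases hil : i = l
        · subst hil
          refine ⟨⟨hclq s (by simp [hsP]) t (by simp [htP]) i (by simp) hst.hst (hl0 s hsP) (hl0 t htP), ?_⟩, ?_⟩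
          · rintro ⟨x, hx, x1, x2, x3⟩
            have hag : ∀ j ∈ P, x j = v j := by
              intro j hj
              by_cases h1 : j = s
              · subst h1; exact x1
              by_cases h2 : j = t
              · subst h2; exact x2
              exact (hst.oth j hj h1 h2).1.imp x hx x1 x2
            have := himp x hx (hag a haP) (hag b hbP)
            rw [x3] at this; cases h1 : v i <;> rw [h1] at this <;> simp at this
          · obtain ⟨α, β, he, hc⟩ := key a haP
            obtain ⟨α', β', he', hc'⟩ := key b hbP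
            refine ⟨α + α', β + β', ?_, ?_, ?_⟩
            · rcases hc with ⟨h1, h2, h3⟩ | ⟨h1, h2, h3⟩ | ⟨h2, h3⟩ <;>
                rcases hc' with ⟨g1, g2, g3⟩ | ⟨g1, g2, g3⟩ | ⟨g2, g3⟩ <;>
                first | linarith | exact absurd (h1.trans g1.symm) hab
            · rcases hc with ⟨h1, h2, h3⟩ | ⟨h1, h2, h3⟩ | ⟨h2, h3⟩ <;>
                rcases hc' with ⟨g1, g2, g3⟩ | ⟨g1, g2, g3⟩ | ⟨g2, g3⟩ <;>
                first | linarith | exact absurd (h1.trans g1.symm) hab
            · rw [u'l, hsl, he, he']; module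
        · have hiP : i ∈ P := by simpa [hil] using hi
          rw [u'i i hiP]
          exact hst.oth i hiP his hit
    rcases Bool.eq_or_eq_not (v a) (w a) with hva | hva <;>
      rcases Bool.eq_or_eq_not (v b) (w b) with hvb | hvb
    · -- same, positive
      refine same r ?_ ?_ ?_ ?_
      · intro i hi hia hib
        obtain ⟨ho, α, β, hα, hβ, he⟩ := hB.oth i hi hia hib
        have hvi := ho.imp v hv hva hvb
        refine ⟨⟨ho.1, by rw [hva, hvb, hvi]; exact ho.2⟩, α, β, hα, hβ, by rw [hva, hvb, hvi]; exact he⟩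
      · rw [hva, hvb]; exact hm
      · rw [hva, hvb]; exact hm'
      · rw [hva, hvb]
    · -- v a = w a, v b = !w b
      refine diff ?_ ?_
      · have F := notP3 hm
        intro x hx h1 h2
        rw [F x hx (h1.trans hva) (h2.trans hvb), F v hv hva hvb]
      · have F := notP3 hm v hv hva hvb
        rw [F, hul, smul_smul, sg_sq, one_smul, hA, hBdef, hva, hvb, sg_not (w b)]; module
    · refine diff ?_ ?_
      · have F := notP3 hm'
        intro x hx h1 h2
        rw [F x hx (h1.trans hva) (h2.trans hvb), F v hv hva hvb]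
      · have F := notP3 hm' v hv hva hvb
        rw [F, hul, smul_smul, Bool.not_not, sg_not, mul_neg, sg_sq, hA, hBdef, hva, hvb, sg_not (w a)]; module
    · refine same (!r) ?_ ?_ ?_ ?_
      · intro i hi hia hib
        obtain ⟨ho, α, β, hα, hβ, he⟩ := hB.oth i hi hia hib
        have hvi := ho.imp' hS hQ v hv hva hvb
        refine ⟨⟨ho.1, by rw [hva, hvb, hvi, Bool.not_not]; exact ho.anti hS hQ⟩, α, β, hα, hβ, ?_⟩
        rw [hva, hvb, hvi, sg_not, sg_not, sg_not, neg_smul, he]; module
      · rw [hva, hvb, Bool.not_not]; exact hm'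
      · rw [hva, hvb, Bool.not_not, Bool.not_not]; exact hm
      · rw [hva, hvb, hul, sg_not (w a), sg_not (w b), sg_not (!r), hA, hBdef]; module

end
end N431.Hyp
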