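import Pool.Agent.N431.Hyp.Defs
import Pool.Agent.N431.Hyp.Fan

namespace N431.Hyp

set_option linter.unusedSectionVars false

/-! ### Hamming distance -/

section hamming
variable {ι : Type*} [DecidableEq ι] [Fintype ι]

lemma hd_flip (x y : ι → Bool) {l : ι} (h : x l ≠ y l) : hammingDist (flip x l) y + 1 = hammingDist x y := by
  unfold hammingDist
  have : (Finset.univ.filter fun i => x i ≠ y i) = insert l (Finset.univ.filter fun i => flip x l i ≠ y i) := by
    ext m
    simp only [Finset.mem_insert, Finset.mem_filter, Finset.mem_univ, true_and]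
    by_cases hm : m = l
    · subst hm; simp [h]
    · rw [flip_ne hm]; simp [hm]
  rw [this, Finset.card_insert_of_notMem]
  simp only [Finset.mem_filter, Finset.mem_univ, true_and, flip_same]
  intro h'
  cases h1 : x l <;> cases h2 : y l <;> simp_all

lemma hd_flip' (x y : ι → Bool) {l : ι} (h : x l = y l) : hammingDist (flip x l) y = hammingDist x y + 1 := by
  have h1 : flip x l l ≠ y l := by rw [flip_same, h]; simp
  have := hd_flip (flip x l) y h1
  have e : flip (flip x l) l = x := by
    funext m
    by_cases hm : m = l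
    · subst hm; simp
    · rw [flip_ne hm, flip_ne hm]
  rw [e] at this
  exact this.symm

lemma flip_flip (x : ι → Bool) (l : ι) : flip (flip x l) l = x := by
  funext m
  by_cases hm : m = l
  · subst hm; simp
  · rw [flip_ne hm, flip_ne hm]

lemma hd_self_flip (x : ι → Bool) (l : ι) : hammingDist x (flip x l) = 1 := by
  have := hd_flip x (flip x l) (l := l) (by simp)
  rw [hammingDist_self] at this
  exact this.symm

lemma hd_one {x y : ι → Bool} (h : hammingDist x y = 1) : ∃ l, y = flip x l := by
  unfold hammingDist at h
  obtain ⟨l, hl⟩ := Finset.card_eq_one.1 h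
  refine ⟨l, funext fun m => ?_⟩
  have key : ∀ m, x m ≠ y m ↔ m = l := by
    intro m
    have := congrArg (fun s => m ∈ s) hl
    simpa using this
  by_cases hm : m = l
  · subst hm
    rw [flip_same]
    have := (key m).2 rfl
    cases h1 : x m <;> cases h2 : y m <;> simp_all
  · rw [flip_ne hm]
    by_contra h'
    exact hm ((key m).1 (Ne.symm h'))

end hamming

/-! ### Walks and sign vectors -/

lemma walk_len {V κ : Type*} [Fintype κ] {G : SimpleGraph V} (s : V → κ → Bool)
    (hadj : ∀ x y, G.Adj x y → hammingDist (s x) (s y) ≤ 1) :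
    ∀ {u v : V} (p : G.Walk u v), hammingDist (s u) (s v) ≤ p.length := by
  intro u v p
  induction p with
  | nil => simp
  | cons h q ih =>
    rw [SimpleGraph.Walk.length_cons]
    have := hammingDist_triangle (s _) (s _) (s _) |>.trans (add_le_add (hadj _ _ h) ih)
    omega

lemma face_convex {V κ : Type*} [Fintype κ] [DecidableEq κ] {G : SimpleGraph V} (s : V → κ → Bool)
    (hadj : ∀ x y, G.Adj x y → hammingDist (s x) (s y) ≤ 1) (C : Set V)
    (hC : ∀ u ∈ C, ∀ v ∈ C, G.dist u v = hammingDist (s u) (s v)) (K : κ → Prop)
    (h1 : ∀ u ∈ C, ∀ v ∈ C, ∀ k, K k → s u k = s v k)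
    (h2 : ∀ u ∈ C, ∀ w, (∀ k, K k → s w k = s u k) → w ∈ C) : IsConvex G C := by
  classical
  intro u hu v hv p hp w hw
  apply h2 u hu w
  intro k hk
  by_contra hne
  have e := congrArg SimpleGraph.Walk.length (p.take_spec hw)
  rw [SimpleGraph.Walk.length_append] at e
  have l1 := walk_len s hadj (p.takeUntil w hw)
  have l2 := walk_len s hadj (p.dropUntil w hw)
  have l3 := hC u hu v hv
  have hk1 := h1 u hu v hv k hk
  have hlt : hammingDist (s u) (s v) < hammingDist (s u) (s w) + hammingDist (s w) (s v) := by
    unfold hammingDist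
    calc _ < ((Finset.univ.filter fun i => s u i ≠ s w i) ∪ (Finset.univ.filter fun i => s w i ≠ s v i)).card := by
          apply Finset.card_lt_card
          refine ⟨fun m hm => ?_, fun hsub => ?_⟩
          · simp only [Finset.mem_union, Finset.mem_filter, Finset.mem_univ, true_and] at hm ⊢
            by_contra hno
            push Not at hno
            exact hm (hno.1.trans hno.2)
          · have hkm : k ∈ (Finset.univ.filter fun i => s u i ≠ s w i) ∪ (Finset.univ.filter fun i => s w i ≠ s v i) := by
              simp only [Finset.mem_union, Finset.mem_filter, Finset.mem_univ, true_and]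
              exact Or.inl (Ne.symm hne)
            have := hsub hkm
            simp only [Finset.mem_filter, Finset.mem_univ, true_and] at this
            exact this hk1
      _ ≤ _ := Finset.card_union_le _ _
  omega

/-! ### Induced subgraphs of hypercubes -/

/-- the subgraph of the hypercube induced by `S` -/
def HG {ι : Type*} [Fintype ι] (S : Set (ι → Bool)) : SimpleGraph S where
  Adj x y := hammingDist x.1 y.1 = 1
  symm := ⟨fun _ _ h => by rw [hammingDist_comm]; exact h⟩
  loopless := ⟨fun _ h => by rw [hammingDist_self] at h; exact absurd h (by decide)⟩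

section HG
variable {ι : Type*} [DecidableEq ι] [Fintype ι] {S : Set (ι → Bool)}

lemma exists_walk (hS : Isom S) : ∀ (n : ℕ) (x y : S), hammingDist x.1 y.1 = n →
    ∃ p : (HG S).Walk x y, p.length = n := by
  intro n
  induction n with
  | zero =>
    intro x y h
    have : x = y := Subtype.ext (hammingDist_eq_zero.1 h)
    subst this
    exact ⟨SimpleGraph.Walk.nil, rfl⟩
  | succ n ih =>
    intro x y h
    have hne : x.1 ≠ y.1 := by
      intro h'; rw [h', hammingDist_self] at h; exact absurd h (by omega)
    obtain ⟨l, h1, h2⟩ := hS x.1 x.2 y.1 y.2 hne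
    have := hd_flip x.1 y.1 h1
    obtain ⟨p, hp⟩ := ih ⟨_, h2⟩ y (by simp only; omega)
    have hadj : (HG S).Adj x ⟨_, h2⟩ := hd_self_flip x.1 l
    exact ⟨SimpleGraph.Walk.cons hadj p, by rw [SimpleGraph.Walk.length_cons, hp]⟩

lemma dist_HG (hS : Isom S) (x y : S) : (HG S).dist x y = hammingDist x.1 y.1 := by
  obtain ⟨p, hp⟩ := exists_walk hS _ x y rfl
  apply le_antisymm
  · rw [← hp]; exact SimpleGraph.dist_le p
  · obtain ⟨q, hq⟩ := (SimpleGraph.Walk.reachable p).exists_walk_length_eq_dist
    rw [← hq]
    exact walk_len (fun x : S => x.1) (fun _ _ h => le_of_eq h) q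

/-- faces -/
def face (S : Set (ι → Bool)) (J : Finset ι) (e : ι → Bool) : Set (ι → Bool) :=
  {x | x ∈ S ∧ ∀ m ∈ J, x m = e m}

lemma face_isom (hS : Isom S) (J : Finset ι) (e : ι → Bool) : Isom (face S J e) := by
  intro x hx y hy hne
  obtain ⟨l, h1, h2⟩ := hS x hx.1 y hy.1 hne
  refine ⟨l, h1, h2, fun m hm => ?_⟩
  have : m ≠ l := by
    rintro rfl
    exact h1 ((hx.2 m hm).trans (hy.2 m hm).symm)
  rw [flip_ne this]; exact hx.2 m hm

end HG

section minors
variable {ι : Type} [DecidableEq ι] [Fintype ι] {S : Set (ι → Bool)} {V : Type} {G : SimpleGraph V}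

lemma face_minor (hS : Isom S) (J : Finset ι) (e : ι → Bool) (hne : (face S J e).Nonempty)
    (h : PCMinor G S (HG S)) : PCMinor G (face S J e) (HG (face S J e)) := by
  have hconv : IsConvex (HG S) {x : S | ∀ m ∈ J, x.1 m = e m} := by
    apply face_convex (fun x : S => x.1) (fun _ _ h => le_of_eq h) _ (fun u _ v _ => dist_HG hS u v)
      (fun k => k ∈ J)
    · intro u hu v hv k hk
      exact (hu k hk).trans (hv k hk).symm
    · intro u hu w hw k hk
      exact (hw k hk).trans (hu k hk)
  have h2 := PCMinor.conv {x : S | ∀ m ∈ J, x.1 m = e m} h hconv (by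
    obtain ⟨x, hx⟩ := hne
    exact ⟨⟨x, hx.1⟩, hx.2⟩)
  refine PCMinor.iso h2 ⟨⟨⟨fun x => ⟨x.1.1, x.1.2, x.2⟩, fun x => ⟨⟨x.1, x.2.1⟩, x.2.2⟩,
    fun x => rfl, fun x => rfl⟩, ?_⟩⟩
  intro x y
  exact Iff.rfl

/-- erase a coordinate -/
def er (l : ι) (x : ι → Bool) : ι → Bool := Function.update x l false

lemma er_same (l : ι) (x : ι → Bool) : er l x l = false := by simp [er]
lemma er_ne {l m : ι} (x : ι → Bool) (h : m ≠ l) : er l x m = x m := by simp [er, h]
lemma er_flip (l : ι) (x : ι → Bool) : er l (flip x l) = er l x := by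
  funext m
  by_cases hm : m = l
  · subst hm; rw [er_same, er_same]
  · rw [er_ne _ hm, er_ne _ hm, flip_ne hm]
lemma er_flip' {l c : ι} (x : ι → Bool) (h : c ≠ l) : er l (flip x c) = flip (er l x) c := by
  funext m
  by_cases hm : m = l
  · subst hm; rw [er_same, flip_ne (Ne.symm h), er_same]
  · rw [er_ne _ hm]
    by_cases hc : m = c
    · subst hc; rw [flip_same, flip_same, er_ne _ hm]
    · rw [flip_ne hc, flip_ne hc, er_ne _ hm]

lemma er_eq {l : ι} {x y : ι → Bool} (h : er l x = er l y) : y = x ∨ y = flip x l := by
  by_cases hl : y l = x l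
  · left
    funext m
    by_cases hm : m = l
    · subst hm; exact hl
    · have := congrFun h m
      rw [er_ne _ hm, er_ne _ hm] at this
      exact this.symm
  · right
    funext m
    by_cases hm : m = l
    · subst hm; rw [flip_same]; exact bne_ hl
    · have := congrFun h m
      rw [er_ne _ hm, er_ne _ hm] at this
      rw [flip_ne hm]; exact this.symm

lemma er_isom (hS : Isom S) (l : ι) : Isom (er l '' S) := by
  rintro _ ⟨x, hx, rfl⟩ _ ⟨y, hy, rfl⟩ hne
  have hex : ∃ i ∈ Finset.univ.erase l, x i ≠ y i := by
    by_contra hno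
    push Not at hno
    apply hne
    funext m
    by_cases hm : m = l
    · subst hm; rw [er_same, er_same]
    · rw [er_ne _ hm, er_ne _ hm]; exact hno m (by simp [hm])
  obtain ⟨z, hz, i, hi, h1, h2, h3⟩ := proj_isom hS (Finset.univ.erase l) _ x y hx hy rfl hex
  have hil : i ≠ l := by simpa using hi
  refine ⟨i, by rw [er_ne _ hil, er_ne _ hil]; exact h1, z, hz, ?_⟩
  funext m
  by_cases hm : m = l
  · subst hm; rw [er_same, flip_ne (Ne.symm hil), er_same]
  · by_cases hmi : m = i
    · subst hmi
      rw [er_ne _ hm, flip_same, er_ne _ hm, h2]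
      exact bne_ (Ne.symm h1)
    · rw [er_ne _ hm, flip_ne hmi, er_ne _ hm]
      exact h3 m (by simp [hm]) hmi

lemma er_minor (hS : Isom S) (l : ι) (h : PCMinor G S (HG S)) :
    PCMinor G (er l '' S : Set (ι → Bool)) (HG (er l '' S)) := by
  by_cases hex : ∃ a ∈ S, flip a l ∈ S
  · obtain ⟨a, ha, hb⟩ := hex
    have hadj : (HG S).Adj ⟨a, ha⟩ ⟨_, hb⟩ := hd_self_flip a l
    have h2 := PCMinor.contr _ _ h hadj
    refine PCMinor.iso h2 ?_
    -- the relation
    have hrel : ∀ x y : S, ((HG S).Adj x y ∧ Theta (HG S) ⟨a, ha⟩ ⟨_, hb⟩ x y) ↔ y.1 = flip x.1 l := by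
      intro x y
      unfold Theta
      rw [dist_HG hS, dist_HG hS, dist_HG hS, dist_HG hS]
      simp only
      constructor
      · rintro ⟨h3, h4⟩
        obtain ⟨m, hm⟩ := hd_one h3
        by_cases hml : m = l
        · subst hml; exact hm
        · exfalso
          have hxy : x.1 l = y.1 l := by rw [hm, flip_ne (Ne.symm hml)]
          apply h4
          by_cases hal : a l = x.1 l
          · rw [hd_flip' a y.1 (hal.trans hxy), hd_flip' a x.1 hal]; ring
          · have e1 := hd_flip a x.1 hal
            have e2 := hd_flip a y.1 (by rw [← hxy]; exact hal)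
            omega
      · intro h3
        refine ⟨by change hammingDist x.1 y.1 = 1; rw [h3]; exact hd_self_flip _ _, ?_⟩
        have hxy : x.1 l ≠ y.1 l := by rw [h3, flip_same]; simp
        by_cases hal : a l = x.1 l
        · have e1 := hd_flip' a x.1 hal
          have e2 := hd_flip a y.1 (by rw [hal]; exact hxy)
          omega
        · have hal' : a l = y.1 l := by
            rw [bne_ hal, ← bne_ (Ne.symm hxy)]
          have e1 := hd_flip a x.1 hal
          have e2 := hd_flip' a y.1 hal'
          omega
    have hquot : ∀ x y : S, (thetaSetoid (HG S) ⟨a, ha⟩ ⟨_, hb⟩) x y ↔ er l x.1 = er l y.1 := by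
      intro x y
      constructor
      · intro h
        change Relation.EqvGen _ x y at h
        induction h with
        | rel x y h => rw [(hrel x y).1 h, er_flip]
        | refl x => rfl
        | symm x y _ ih => exact ih.symm
        | trans x y z _ _ ih1 ih2 => exact ih1.trans ih2
      · intro h
        change Relation.EqvGen _ x y
        rcases er_eq h with h | h
        · rw [Subtype.ext h]; exact Relation.EqvGen.refl _
        · exact Relation.EqvGen.rel _ _ ((hrel x y).2 h)
    let F : Quotient (thetaSetoid (HG S) ⟨a, ha⟩ ⟨_, hb⟩) → (er l '' S : Set (ι → Bool)) :=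
      Quotient.lift (fun x : S => ⟨er l x.1, x.1, x.2, rfl⟩) (fun x y h => Subtype.ext ((hquot x y).1 h))
    have hF : ∀ x : S, F (Quotient.mk _ x) = ⟨er l x.1, x.1, x.2, rfl⟩ := fun x => rfl
    have hbij : Function.Bijective F := by
      constructor
      · intro p q
        refine Quotient.inductionOn₂ p q fun x y h => ?_
        rw [hF, hF] at h
        exact Quotient.sound ((hquot x y).2 (congrArg Subtype.val h))
      · rintro ⟨_, x, hx, rfl⟩
        exact ⟨Quotient.mk _ ⟨x, hx⟩, rfl⟩
    refine ⟨⟨Equiv.ofBijective F hbij, ?_⟩⟩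
    intro p q
    refine Quotient.inductionOn₂ p q fun x y => ?_
    change hammingDist (er l x.1) (er l y.1) = 1 ↔ (contract (HG S) _ _).Adj _ _
    constructor
    · intro h
      obtain ⟨m, hm⟩ := hd_one h
      have hml : m ≠ l := by
        rintro rfl
        have := congrFun hm m
        rw [flip_same, er_same, er_same] at this
        exact absurd this (by decide)
      refine ⟨fun h' => ?_, ?_⟩
      · have := (hquot x y).1 (Quotient.exact h')
        rw [this, hammingDist_self] at h
        exact absurd h (by decide)
      · rw [← er_flip' _ hml] at hm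
        rcases er_eq hm.symm with h3 | h3
        · exact ⟨x, y, by change hammingDist x.1 y.1 = 1; rw [h3]; exact hd_self_flip _ _, rfl, rfl⟩
        · have hxm : x.1 m ≠ y.1 m := by rw [h3, flip_ne hml, flip_same]; simp
          have hxy : x.1 ≠ y.1 := fun h => hxm (congrFun h m)
          obtain ⟨c, hc1, hc2⟩ := hS x.1 x.2 y.1 y.2 hxy
          have hcc : c = l ∨ c = m := by
            by_contra hno
            push Not at hno
            apply hc1
            rw [h3, flip_ne hno.1, flip_ne hno.2]
          rcases hcc with rfl | rfl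
          · refine ⟨⟨_, hc2⟩, y, ?_, Quotient.sound ((hquot _ _).2 (er_flip _ _)), rfl⟩
            have : y.1 = flip (flip x.1 c) m := by
              rw [h3]
              funext t
              by_cases h4 : t = m
              · subst h4; rw [flip_ne hml, flip_same, flip_same, flip_ne hml]
              · rw [flip_ne h4]
                by_cases h5 : t = c
                · subst h5; rw [flip_same, flip_same, flip_ne (Ne.symm hml)]
                · rw [flip_ne h5, flip_ne h5, flip_ne h4]
            change hammingDist (flip x.1 c) y.1 = 1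
            rw [this]; exact hd_self_flip _ _
          · refine ⟨x, ⟨_, hc2⟩, hd_self_flip _ _, rfl, Quotient.sound ((hquot _ _).2 ?_)⟩
            rw [h3, er_flip]
    · rintro ⟨h1, x', y', h2, h3, h4⟩
      have e1 := (hquot _ _).1 (Quotient.exact h3)
      have e2 := (hquot _ _).1 (Quotient.exact h4)
      obtain ⟨m, hm⟩ := hd_one h2
      have hml : m ≠ l := by
        rintro rfl
        apply h1
        apply Quotient.sound
        refine (hquot _ _).2 ?_
        rw [← e1, ← e2, hm, er_flip]
      rw [← e1, ← e2, hm, er_flip' _ hml]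
      exact hd_self_flip _ _
  · push Not at hex
    have hconst : ∀ x ∈ S, ∀ y ∈ S, x l = y l := by
      intro x hx y hy
      by_contra hne
      obtain ⟨x', hx', y', hy', h1, h2⟩ := exists_adj hS (Finset.univ.erase l) l _ x y hx hy hne rfl (by simp)
      apply hex x' hx'
      have : y' = flip x' l := by
        funext m
        by_cases hm : m = l
        · subst hm; rw [h2, flip_same]
        · rw [flip_ne hm]; exact (h1 m (by simp [hm])).symm
      rw [← this]; exact hy'
    refine PCMinor.iso h ?_
    let F : S → (er l '' S : Set (ι → Bool)) := fun x => ⟨er l x.1, x.1, x.2, rfl⟩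
    have hbij : Function.Bijective F := by
      constructor
      · intro x y h
        have := congrArg Subtype.val h
        apply Subtype.ext
        rcases er_eq this with h | h
        · exact h.symm
        · have h1 := hconst x.1 x.2 y.1 y.2
          rw [h, flip_same] at h1
          cases hh : x.1 l <;> rw [hh] at h1 <;> simp at h1
      · rintro ⟨_, x, hx, rfl⟩
        exact ⟨⟨x, hx⟩, rfl⟩
    refine ⟨⟨Equiv.ofBijective F hbij, ?_⟩⟩
    intro x y
    change hammingDist (er l x.1) (er l y.1) = 1 ↔ hammingDist x.1 y.1 = 1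
    have : hammingDist (er l x.1) (er l y.1) = hammingDist x.1 y.1 := by
      unfold hammingDist
      congr 1
      ext m
      simp only [Finset.mem_filter, Finset.mem_univ, true_and]
      by_cases hm : m = l
      · subst hm
        rw [er_same, er_same]
        simp [hconst x.1 x.2 y.1 y.2]
      · rw [er_ne _ hm, er_ne _ hm]
    rw [this]

end minors

end N431.Hyp
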