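import Mathlib

/-!
# Definitions: hypercellular graphs and tope graphs of hyperplane arrangements
-/

namespace N431.Hyp

/-! ### Convex subgraphs, partial cubes, pc-minors, hypercellular graphs -/

/-- `C` is the vertex set of a convex subgraph of `G`: every shortest path of `G` between two
vertices of `C` has all its vertices in `C`. -/
def IsConvex {V : Type*} (G : SimpleGraph V) (C : Set V) : Prop :=
  ∀ u ∈ C, ∀ v ∈ C, ∀ p : G.Walk u v, p.length = G.dist u v → ∀ w ∈ p.support, w ∈ C

/-- `G` is a connected graph with an isometric embedding in a hypercube. -/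
def IsPCube {V : Type*} (G : SimpleGraph V) : Prop :=
  G.Connected ∧ ∃ (n : ℕ) (φ : V → Fin n → Bool), ∀ u v, G.dist u v = hammingDist (φ u) (φ v)

/-- The Djokovic-Winkler relation between the edges `u v` and `x y`. -/
def Theta {V : Type*} (G : SimpleGraph V) (u v x y : V) : Prop :=
  G.dist u x + G.dist v y ≠ G.dist u y + G.dist v x

/-- The equivalence relation on vertices generated by the edges of the class of the edge `a b`. -/
def thetaSetoid {V : Type*} (G : SimpleGraph V) (a b : V) : Setoid V :=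
  Relation.EqvGen.setoid (fun x y => G.Adj x y ∧ Theta G a b x y)

/-- The graph obtained by contracting all the edges of the class of the edge `a b`. -/
def contract {V : Type*} (G : SimpleGraph V) (a b : V) :
    SimpleGraph (Quotient (thetaSetoid G a b)) where
  Adj p q := p ≠ q ∧ ∃ x y, G.Adj x y ∧ Quotient.mk (thetaSetoid G a b) x = p ∧
    Quotient.mk (thetaSetoid G a b) y = q
  symm := ⟨fun _ _ ⟨h, x, y, h1, h2, h3⟩ => ⟨h.symm, y, x, h1.symm, h3, h2⟩⟩
  loopless := ⟨fun _ h => h.1 rfl⟩

/-- `PCMinor G W H`: the graph `H` (on the type `W`) is a pc-minor of `G`, up to isomorphism. -/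
inductive PCMinor {V : Type} (G : SimpleGraph V) : (W : Type) → SimpleGraph W → Prop
  | refl : PCMinor G V G
  | iso {W W' : Type} {H : SimpleGraph W} {H' : SimpleGraph W'} :
      PCMinor G W H → Nonempty (H ≃g H') → PCMinor G W' H'
  | contr {W : Type} {H : SimpleGraph W} (a b : W) :
      PCMinor G W H → H.Adj a b → PCMinor G (Quotient (thetaSetoid H a b)) (contract H a b)
  | conv {W : Type} {H : SimpleGraph W} (C : Set W) :
      PCMinor G W H → IsConvex H C → C.Nonempty → PCMinor G C (H.induce C)

/-- The 3-cube with one vertex deleted. -/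
def cubeMinus : SimpleGraph {x : Fin 3 → Bool // x ≠ fun _ => true} where
  Adj x y := hammingDist x.1 y.1 = 1
  symm := ⟨fun _ _ h => by rw [hammingDist_comm]; exact h⟩
  loopless := ⟨fun _ h => by rw [hammingDist_self] at h; exact absurd h (by decide)⟩

/-- Hypercellular graphs: connected graphs isometrically embedded in a hypercube, without a pc-minor
isomorphic to the 3-cube minus a vertex. -/
def Hypercellular {V : Type} (G : SimpleGraph V) : Prop :=
  IsPCube G ∧ ¬ PCMinor G {x : Fin 3 → Bool // x ≠ fun _ => true} cubeMinus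

/-! ### Tope graphs of central hyperplane arrangements -/

/-- A linear hyperplane of `ℝ^d`: the kernel of a nonzero linear functional. -/
def IsHyperplane {d : ℕ} (H : Submodule ℝ (Fin d → ℝ)) : Prop :=
  ∃ f : (Fin d → ℝ) →ₗ[ℝ] ℝ, f ≠ 0 ∧ LinearMap.ker f = H

/-- The complement of the union of the hyperplanes. -/
def arrCompl {d : ℕ} (A : Finset (Submodule ℝ (Fin d → ℝ))) : Set (Fin d → ℝ) :=
  {x | ∀ H ∈ A, x ∉ H}

/-- The regions: the connected components of the complement. -/
def IsRegion {d : ℕ} (A : Finset (Submodule ℝ (Fin d → ℝ))) (R : Set (Fin d → ℝ)) : Prop :=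
  ∃ x ∈ arrCompl A, R = connectedComponentIn (arrCompl A) x

/-- The hyperplane `H` separates the sets `R` and `R'`. -/
def Separates {d : ℕ} (H : Submodule ℝ (Fin d → ℝ)) (R R' : Set (Fin d → ℝ)) : Prop :=
  ∃ f : (Fin d → ℝ) →ₗ[ℝ] ℝ, LinearMap.ker f = H ∧ (∀ x ∈ R, 0 < f x) ∧ (∀ x ∈ R', f x < 0)

lemma Separates.symm {d : ℕ} {H : Submodule ℝ (Fin d → ℝ)} {R R' : Set (Fin d → ℝ)}
    (h : Separates H R R') : Separates H R' R := by
  obtain ⟨f, h1, h2, h3⟩ := h
  refine ⟨-f, ?_, fun x hx => ?_, fun x hx => ?_⟩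
  · rw [← h1]; ext x; simp
  · have := h3 x hx
    simpa using this
  · have := h2 x hx
    simpa using this

/-- The tope graph: its vertices are the regions, and two regions are adjacent when exactly one
hyperplane of the arrangement separates them. -/
def topeGraph {d : ℕ} (A : Finset (Submodule ℝ (Fin d → ℝ))) :
    SimpleGraph {R : Set (Fin d → ℝ) // IsRegion A R} where
  Adj R R' := ∃! H, H ∈ A ∧ Separates H R.1 R'.1
  symm := ⟨fun R R' ⟨H, ⟨h1, h2⟩, h3⟩ => ⟨H, ⟨h1, h2.symm⟩, fun H' h' => h3 H' ⟨h'.1, h'.2.symm⟩⟩⟩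
  loopless := ⟨fun R ⟨H, ⟨_, f, _, h3, h4⟩, _⟩ => by
    obtain ⟨x, hx, hR⟩ := R.2
    have hxR : x ∈ R.1 := by rw [hR]; exact mem_connectedComponentIn hx
    have h5 := h3 x hxR
    have h6 := h4 x hxR
    linarith⟩

end N431.Hyp
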