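import Pool.Agent.N431.Hyp.Cube

namespace N431.Hyp

set_option linter.unusedSectionVars false

section minors
variable {ι : Type} [DecidableEq ι] [Fintype ι] {S : Set (ι → Bool)} {V : Type} {G : SimpleGraph V}

/-- erase all coordinates in `K` -/
def erK (K : Finset ι) (x : ι → Bool) : ι → Bool := fun m => if m ∈ K then false else x m

lemma erK_mem {K : Finset ι} (x : ι → Bool) {m : ι} (h : m ∈ K) : erK K x m = false := by simp [erK, h]
lemma erK_not {K : Finset ι} (x : ι → Bool) {m : ι} (h : m ∉ K) : erK K x m = x m := by simp [erK, h]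

lemma erK_minor (hS : Isom S) (h : PCMinor G S (HG S)) (K : Finset ι) :
    Isom (erK K '' S) ∧ PCMinor G (erK K '' S : Set (ι → Bool)) (HG (erK K '' S)) := by
  induction K using Finset.induction_on with
  | empty =>
    have : erK (∅ : Finset ι) '' S = S := by
      have : erK (∅ : Finset ι) = id := by
        funext x m; simp [erK]
      rw [this, Set.image_id]
    rw [this]
    exact ⟨hS, h⟩
  | insert l K hl ih =>
    have : erK (insert l K) '' S = er l '' (erK K '' S) := by
      rw [← Set.image_comp]
      congr 1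
      funext x m
      by_cases hm : m = l
      · subst hm; simp [erK, er]
      · simp [erK, er, hm]
    rw [this]
    exact ⟨er_isom ih.1 l, er_minor ih.1 l ih.2⟩

/-- a pc-minor which is a cube minus a vertex -/
lemma cube_minor (hS : Isom S) (h : PCMinor G S (HG S)) (J : Finset ι) (e : ι → Bool) {i j k : ι}
    (nij : i ≠ j) (nik : i ≠ k) (njk : j ≠ k)
    (h7 : ∀ a b c, (a, b, c) ≠ (e i, e j, e k) →
      ∃ x ∈ S, (∀ m ∈ J, x m = e m) ∧ x i = a ∧ x j = b ∧ x k = c)
    (h8 : ¬ ∃ x ∈ S, (∀ m ∈ J, x m = e m) ∧ x i = e i ∧ x j = e j ∧ x k = e k) :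
    PCMinor G {x : Fin 3 → Bool // x ≠ fun _ => true} cubeMinus := by
  classical
  have hne : (face S J e).Nonempty := by
    obtain ⟨x, hx, hx1, _⟩ := h7 (!e i) (e j) (e k) (by
      intro h
      have := congrArg Prod.fst h
      simp at this)
    exact ⟨x, hx, hx1⟩
  have hf := face_minor hS J e hne h
  have hi := face_isom hS J e
  set K : Finset ι := ({i, j, k} : Finset ι)ᶜ with hK
  obtain ⟨_, hm⟩ := erK_minor hi hf K
  have iK : i ∉ K := by simp [hK]
  have jK : j ∉ K := by simp [hK]
  have kK : k ∉ K := by simp [hK]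
  have out : ∀ m, m ≠ i → m ≠ j → m ≠ k → m ∈ K := by
    intro m h1 h2 h3; simp [hK, h1, h2, h3]
  let σ : Fin 3 → ι := ![i, j, k]
  have hσ0 : σ 0 = i := rfl
  have hσ1 : σ 1 = j := rfl
  have hσ2 : σ 2 = k := rfl
  have σinj : Function.Injective σ := by
    intro a b hab
    fin_cases a <;> fin_cases b <;> simp_all [σ]
  have σK : ∀ t, σ t ∉ K := by
    intro t; fin_cases t
    · exact iK
    · exact jK
    · exact kK
  have σout : ∀ m, (∀ t, m ≠ σ t) → m ∈ K := fun m hm => out m (hm 0) (hm 1) (hm 2)
  refine PCMinor.iso hm ?_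
  have hFne : ∀ x : (erK K '' face S J e : Set (ι → Bool)),
      (fun t => (x.1 (σ t) == e (σ t))) ≠ fun _ => true := by
    rintro ⟨_, x, hx, rfl⟩ h
    apply h8
    have key : ∀ t, x (σ t) = e (σ t) := by
      intro t
      have := congrFun h t
      simp only [beq_iff_eq] at this
      rwa [erK_not _ (σK t)] at this
    exact ⟨x, hx.1, hx.2, key 0, key 1, key 2⟩
  let F : (erK K '' face S J e : Set (ι → Bool)) → {x : Fin 3 → Bool // x ≠ fun _ => true} :=
    fun x => ⟨fun t => (x.1 (σ t) == e (σ t)), hFne x⟩
  have hFv : ∀ x t, (F x).1 t = (x.1 (σ t) == e (σ t)) := fun x t => rfl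
  have hFe : ∀ x y t, (F x).1 t = (F y).1 t ↔ x.1 (σ t) = y.1 (σ t) := by
    intro x y t
    rw [hFv, hFv]
    cases x.1 (σ t) <;> cases y.1 (σ t) <;> cases e (σ t) <;> simp
  have hout : ∀ x : (erK K '' face S J e : Set (ι → Bool)), ∀ m ∈ K, x.1 m = false := by
    rintro ⟨_, x, hx, rfl⟩ m hm
    exact erK_mem _ hm
  have hbij : Function.Bijective F := by
    constructor
    · intro x y hxy
      apply Subtype.ext
      funext m
      by_cases hmK : m ∈ K
      · rw [hout x m hmK, hout y m hmK]
      · have : ∃ t, m = σ t := by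
          by_contra hno
          push Not at hno
          exact hmK (σout m hno)
        obtain ⟨t, rfl⟩ := this
        exact (hFe x y t).1 (by rw [hxy])
    · rintro ⟨g, hg⟩
      obtain ⟨x, hx, hx1, hx2, hx3, hx4⟩ := h7 (if g 0 then e i else !e i) (if g 1 then e j else !e j)
        (if g 2 then e k else !e k) (by
        intro h
        apply hg
        have h1 : (if g 0 then e i else !e i) = e i := congrArg Prod.fst h
        have h2 : (if g 1 then e j else !e j) = e j := congrArg (fun p => p.2.1) h
        have h3 : (if g 2 then e k else !e k) = e k := congrArg (fun p => p.2.2) h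
        funext t
        fin_cases t
        · change g 0 = true
          by_contra h'
          rw [if_neg h'] at h1
          cases hh : e i <;> rw [hh] at h1 <;> simp at h1
        · change g 1 = true
          by_contra h'
          rw [if_neg h'] at h2
          cases hh : e j <;> rw [hh] at h2 <;> simp at h2
        · change g 2 = true
          by_contra h'
          rw [if_neg h'] at h3
          cases hh : e k <;> rw [hh] at h3 <;> simp at h3)
      refine ⟨⟨erK K x, x, ⟨hx, hx1⟩, rfl⟩, Subtype.ext (funext fun t => ?_)⟩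
      rw [hFv]
      change (erK K x (σ t) == e (σ t)) = g t
      rw [erK_not _ (σK t)]
      fin_cases t
      · change (x i == e i) = g 0
        rw [hx2]; cases g 0 <;> cases e i <;> simp
      · change (x j == e j) = g 1
        rw [hx3]; cases g 1 <;> cases e j <;> simp
      · change (x k == e k) = g 2
        rw [hx4]; cases g 2 <;> cases e k <;> simp
  refine ⟨⟨Equiv.ofBijective F hbij, ?_⟩⟩
  intro x y
  change hammingDist (F x).1 (F y).1 = 1 ↔ hammingDist x.1 y.1 = 1
  have : hammingDist (F x).1 (F y).1 = hammingDist x.1 y.1 := by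
    unfold hammingDist
    rw [← Finset.card_image_of_injective _ σinj]
    congr 1
    ext m
    simp only [Finset.mem_image, Finset.mem_filter, Finset.mem_univ, true_and]
    constructor
    · rintro ⟨t, h1, rfl⟩
      exact fun h => h1 ((hFe x y t).2 h)
    · intro h1
      have : ∃ t, m = σ t := by
        by_contra hno
        push Not at hno
        have hmK := σout m hno
        exact h1 (by rw [hout x m hmK, hout y m hmK])
      obtain ⟨t, rfl⟩ := this
      exact ⟨t, fun h => h1 ((hFe x y t).1 h), rfl⟩
  rw [this]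

lemma noQ_of (hS : Isom S) (h : PCMinor G S (HG S))
    (hno : ¬ PCMinor G {x : Fin 3 → Bool // x ≠ fun _ => true} cubeMinus) : NoQ S := by
  intro J e i j k _ _ _ hij hik hjk h7
  by_contra h8
  exact hno (cube_minor hS h J e hij hik hjk h7 h8)

end minors

section range
variable {ι : Type*} [DecidableEq ι] [Fintype ι] {V : Type*} {G : SimpleGraph V}

lemma isom_range (hG : G.Connected) (φ : V → ι → Bool) (hd : ∀ u v, G.dist u v = hammingDist (φ u) (φ v)) :
    Isom (Set.range φ) := by
  rintro _ ⟨u, rfl⟩ _ ⟨v, rfl⟩ hne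
  obtain ⟨p, hp⟩ := (hG u v).exists_walk_length_eq_dist
  cases p with
  | nil => exact absurd rfl hne
  | cons h q =>
    rename_i w
    rw [SimpleGraph.Walk.length_cons] at hp
    have h1 : hammingDist (φ u) (φ w) = 1 := by
      rw [← hd]; exact SimpleGraph.dist_eq_one_iff_adj.2 h
    obtain ⟨l, hl⟩ := hd_one h1
    have h2 := SimpleGraph.dist_le q
    rw [hd] at hp h2
    refine ⟨l, ?_, w, hl⟩
    intro heq
    have := hd_flip' _ _ heq
    rw [← hl] at this
    omega

lemma iso_range (hG : G.Connected) (φ : V → ι → Bool) (hd : ∀ u v, G.dist u v = hammingDist (φ u) (φ v)) :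
    Nonempty (G ≃g HG (Set.range φ)) := by
  have hinj : Function.Injective φ := by
    intro u v h
    have := hd u v
    rw [h, hammingDist_self] at this
    exact (hG.dist_eq_zero_iff).1 this
  refine ⟨⟨Equiv.ofInjective φ hinj, ?_⟩⟩
  intro u v
  change hammingDist (φ u) (φ v) = 1 ↔ _
  rw [← hd]
  exact SimpleGraph.dist_eq_one_iff_adj

end range

end N431.Hyp
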