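import Pool.Agent.N431.Hyp.Pen

namespace N431.Hyp

variable {ι : Type*} [DecidableEq ι] [Fintype ι]

set_option linter.unusedSectionVars false

variable {S : Set (ι → Bool)}

/-- relative to `v`, the halfspace of `l` is contained in the halfspace of `c` -/
def Sub (S : Set (ι → Bool)) (v : ι → Bool) (l c : ι) : Prop := l ≠ c ∧ ¬ P2 S l c (v l) (!v c)

/-- relative to `v`, the class `c` is opposite in the concurrent triple `a b c` -/
def Opp (S : Set (ι → Bool)) (v : ι → Bool) (a b c : ι) : Prop :=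
  C6 S a b c ∧ ¬ P3 S a b c (v a) (v b) (!v c)

lemma Opp.symm {v : ι → Bool} {a b c : ι} (h : Opp S v a b c) : Opp S v b a c :=
  ⟨h.1.perm1, fun ⟨x, hx, p, q, r⟩ => h.2 ⟨x, hx, q, p, r⟩⟩

lemma Sub.not_cross {v : ι → Bool} {l c : ι} (h : Sub S v l c) : ¬ Cross S l c :=
  fun hc => h.2 (hc _ _)

lemma bne_ {a b : Bool} (h : a ≠ b) : a = !b := by cases a <;> cases b <;> simp_all

/-- values of members forced by the three constraints -/
lemma Sub.imp {v : ι → Bool} {l c : ι} (h : Sub S v l c) : ∀ x ∈ S, x l = v l → x c = v c := by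
  intro x hx h1
  have := notP2 h.2 x hx h1
  rwa [Bool.not_not] at this

lemma Sub.imp' {v : ι → Bool} {l c : ι} (h : Sub S v l c) : ∀ x ∈ S, x c = !v c → x l = !v l := by
  intro x hx h1
  apply bne_
  intro h2
  rw [h.imp x hx h2] at h1
  cases hh : v c <;> rw [hh] at h1 <;> simp at h1

lemma Opp.imp {v : ι → Bool} {a b c : ι} (h : Opp S v a b c) :
    ∀ x ∈ S, x a = v a → x b = v b → x c = v c := by
  intro x hx h1 h2
  have := notP3 h.2 x hx h1 h2
  rwa [Bool.not_not] at this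

section
variable (hS : Isom S) (hQ : NoQ S)
include hS hQ

lemma Opp.anti {v : ι → Bool} {a b c : ι} (h : Opp S v a b c) :
    ¬ P3 S a b c (!v a) (!v b) (v c) := by
  have := (triple hS hQ h.1.ij h.1.ik h.1.jk h.2).2.2.2.2.2.2
  rwa [Bool.not_not] at this

lemma Opp.imp' {v : ι → Bool} {a b c : ι} (h : Opp S v a b c) :
    ∀ x ∈ S, x a = !v a → x b = !v b → x c = !v c := by
  intro x hx h1 h2
  exact notP3 (h.anti hS hQ) x hx h1 h2

lemma Opp.p1 {v : ι → Bool} {a b c : ι} (h : Opp S v a b c) : P3 S a b c (!v a) (v b) (!v c) :=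
  (triple hS hQ h.1.ij h.1.ik h.1.jk h.2).1
lemma Opp.p2 {v : ι → Bool} {a b c : ι} (h : Opp S v a b c) : P3 S a b c (v a) (!v b) (!v c) :=
  (triple hS hQ h.1.ij h.1.ik h.1.jk h.2).2.1
lemma Opp.p3 {v : ι → Bool} {a b c : ι} (h : Opp S v a b c) : P3 S a b c (!v a) (!v b) (!v c) :=
  (triple hS hQ h.1.ij h.1.ik h.1.jk h.2).2.2.2.1
lemma Opp.p4 {v : ι → Bool} {a b c : ι} (h : Opp S v a b c) : P3 S a b c (!v a) (v b) (v c) := by
  have := (triple hS hQ h.1.ij h.1.ik h.1.jk h.2).2.2.2.2.1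
  rwa [Bool.not_not] at this
lemma Opp.p5 {v : ι → Bool} {a b c : ι} (h : Opp S v a b c) : P3 S a b c (v a) (!v b) (v c) := by
  have := (triple hS hQ h.1.ij h.1.ik h.1.jk h.2).2.2.2.2.2.1
  rwa [Bool.not_not] at this

lemma cross_of {i j : ι} {a b : Bool} (h1 : P2 S i j a b) (h2 : P2 S i j a (!b)) (h3 : P2 S i j (!a) b)
    (h4 : P2 S i j (!a) (!b)) : Cross S i j := by
  intro p q
  rcases Bool.eq_or_eq_not p a with rfl | rfl <;> rcases Bool.eq_or_eq_not q b with rfl | rfl <;>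
    assumption

/-- each concurrent triple has an opposite class -/
lemma exists_opp {v : ι → Bool} (hv : v ∈ S) {a b c : ι} (h : C6 S a b c) :
    Opp S v a b c ∨ Opp S v b c a ∨ Opp S v a c b := by
  obtain ⟨p, q, r, hm⟩ := h.miss
  have ha := (triple hS hQ h.ij h.ik h.jk hm).2.2.2.2.2.2
  have hv3 : P3 S a b c (v a) (v b) (v c) := ⟨v, hv, rfl, rfl, rfl⟩
  rcases Bool.eq_or_eq_not p (v a) with rfl | rfl <;> rcases Bool.eq_or_eq_not q (v b) with rfl | rfl <;>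
    rcases Bool.eq_or_eq_not r (v c) with rfl | rfl <;> (try simp only [Bool.not_not] at ha)
  · exact absurd hv3 hm
  · exact Or.inl ⟨h, hm⟩
  · exact Or.inr (Or.inr ⟨h.perm2, fun ⟨x, hx, p, q, r⟩ => hm ⟨x, hx, p, r, q⟩⟩)
  · exact Or.inr (Or.inl ⟨h.rot', fun ⟨x, hx, p, q, r⟩ => ha ⟨x, hx, r, p, q⟩⟩)
  · exact Or.inr (Or.inl ⟨h.rot', fun ⟨x, hx, p, q, r⟩ => hm ⟨x, hx, r, p, q⟩⟩)
  · exact Or.inr (Or.inr ⟨h.perm2, fun ⟨x, hx, p, q, r⟩ => ha ⟨x, hx, p, r, q⟩⟩)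
  · exact Or.inl ⟨h, ha⟩
  · exact absurd hv3 ha

theorem n1 {v : ι → Bool} (hv : v ∈ S) {a b c l : ι} (h : Opp S v a b c) (hl : Sub S v l c) :
    Sub S v l a ∨ Sub S v l b := by
  have nla : l ≠ a := by rintro rfl; exact hl.not_cross h.1.ik
  have nlb : l ≠ b := by rintro rfl; exact hl.not_cross h.1.jk
  by_contra hno
  push Not at hno
  have q1 : P2 S l a (v l) (!v a) := by
    by_contra hh; exact hno.1 ⟨nla, hh⟩
  have q2 : P2 S l b (v l) (!v b) := by
    by_contra hh; exact hno.2 ⟨nlb, hh⟩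
  obtain ⟨x1, hx1, x1a, x1b, x1c⟩ := h.p1 hS hQ
  obtain ⟨x2, hx2, x2a, x2b, x2c⟩ := h.p2 hS hQ
  have x1l := hl.imp' x1 hx1 x1c
  have x2l := hl.imp' x2 hx2 x2c
  have cla : Cross S l a := cross_of hS hQ ⟨v, hv, rfl, rfl⟩ q1 ⟨x2, hx2, x2l, x2a⟩ ⟨x1, hx1, x1l, x1a⟩
  have clb : Cross S l b := cross_of hS hQ ⟨v, hv, rfl, rfl⟩ q2 ⟨x1, hx1, x1l, x1b⟩ ⟨x2, hx2, x2l, x2b⟩
  rcases c6_or_full h.1.ij cla.symm clb.symm with h3 | h3
  · exact hl.not_cross (pencil hS hQ h3 h.1 hl.1).jk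
  · obtain ⟨x, hx, xa, xb, xl⟩ := h3 (!v a) (!v b) (v l)
    have := h.imp' hS hQ x hx xa xb
    have := hl.imp' x hx this
    rw [xl] at this
    cases hh : v l <;> rw [hh] at this <;> simp at this

theorem n3a {v : ι → Bool} (hv : v ∈ S) {a b c l : ι} (h : Opp S v a b c) (hl : Sub S v l a) :
    Sub S v l c := by
  have nlc : l ≠ c := by rintro rfl; exact hl.not_cross h.1.ik.symm
  refine ⟨nlc, ?_⟩
  rintro ⟨x, hx, xl, xc⟩
  have xa := hl.imp x hx xl
  have xb : x b = !v b := by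
    apply bne_
    intro hh
    rw [h.imp x hx xa hh] at xc
    cases h1 : v c <;> rw [h1] at xc <;> simp at xc
  obtain ⟨x1, hx1, x1a, x1b, x1c⟩ := h.p1 hS hQ
  obtain ⟨x3, hx3, x3a, x3b, x3c⟩ := h.p3 hS hQ
  obtain ⟨x4, hx4, x4a, x4b, x4c⟩ := h.p4 hS hQ
  have x1l := hl.imp' x1 hx1 x1a
  have x3l := hl.imp' x3 hx3 x3a
  have x4l := hl.imp' x4 hx4 x4a
  have clb : Cross S l b := cross_of hS hQ ⟨v, hv, rfl, rfl⟩ ⟨x, hx, xl, xb⟩ ⟨x1, hx1, x1l, x1b⟩
    ⟨x3, hx3, x3l, x3b⟩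
  have clc : Cross S l c := cross_of hS hQ ⟨v, hv, rfl, rfl⟩ ⟨x, hx, xl, xc⟩ ⟨x4, hx4, x4l, x4c⟩
    ⟨x3, hx3, x3l, x3c⟩
  rcases c6_or_full h.1.jk clb.symm clc.symm with h3 | h3
  · exact hl.not_cross (pencil hS hQ h3 h.1.rot' hl.1).jk
  · obtain ⟨y, hy, yb, yc, yl⟩ := h3 (v b) (!v c) (v l)
    have ya := hl.imp y hy yl
    have := h.imp y hy ya yb
    rw [yc] at this
    cases h1 : v c <;> rw [h1] at this <;> simp at this

theorem n3b {v : ι → Bool} (hv : v ∈ S) {a b c a1 b1 : ι} (h : Opp S v a b c) (h' : Opp S v a1 b1 a)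
    (nac : a1 ≠ c) (nbc : b1 ≠ c) (h1 : ¬ Cross S a1 c) (h2 : ¬ Cross S b1 c) :
    Sub S v a1 c ∨ Sub S v b1 c := by
  by_contra hno
  push Not at hno
  have q1 : P2 S a1 c (v a1) (!v c) := by
    by_contra hh; exact hno.1 ⟨nac, hh⟩
  have q2 : P2 S b1 c (v b1) (!v c) := by
    by_contra hh; exact hno.2 ⟨nbc, hh⟩
  -- either a1 = !v ⟹ c = !v  (missing (!a1, c)) or a1 = !v ⟹ c = v
  have r1 : (¬ P2 S a1 c (!v a1) (v c)) ∨ ¬ P2 S a1 c (!v a1) (!v c) := by
    by_contra hh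
    push Not at hh
    exact h1 (cross_of hS hQ ⟨v, hv, rfl, rfl⟩ q1 hh.1 hh.2)
  have r2 : (¬ P2 S b1 c (!v b1) (v c)) ∨ ¬ P2 S b1 c (!v b1) (!v c) := by
    by_contra hh
    push Not at hh
    exact h2 (cross_of hS hQ ⟨v, hv, rfl, rfl⟩ q2 hh.1 hh.2)
  obtain ⟨z, hz, za, zb, _⟩ := h'.p3 hS hQ
  rcases r1 with r1 | r1 <;> rcases r2 with r2 | r2
  · -- c = v ⟹ a1 = v, b1 = v ⟹ a = v
    obtain ⟨x, hx, xa, xc⟩ := h.1.ik (!v a) (v c)
    have e1 : x a1 = v a1 := by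
      by_contra hh; exact r1 ⟨x, hx, bne_ hh, xc⟩
    have e2 : x b1 = v b1 := by
      by_contra hh; exact r2 ⟨x, hx, bne_ hh, xc⟩
    have := h'.imp x hx e1 e2
    rw [xa] at this
    cases hh : v a <;> rw [hh] at this <;> simp at this
  · rcases Bool.eq_or_eq_not (z c) (v c) with hh | hh
    · exact r1 ⟨z, hz, za, hh⟩
    · exact r2 ⟨z, hz, zb, hh⟩
  · rcases Bool.eq_or_eq_not (z c) (v c) with hh | hh
    · exact r2 ⟨z, hz, zb, hh⟩
    · exact r1 ⟨z, hz, za, hh⟩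
  · obtain ⟨x, hx, xa, xc⟩ := h.1.ik (!v a) (!v c)
    have e1 : x a1 = v a1 := by
      by_contra hh; exact r1 ⟨x, hx, bne_ hh, xc⟩
    have e2 : x b1 = v b1 := by
      by_contra hh; exact r2 ⟨x, hx, bne_ hh, xc⟩
    have := h'.imp x hx e1 e2
    rw [xa] at this
    cases hh : v a <;> rw [hh] at this <;> simp at this

/-- auxiliary for n2 -/
lemma n2aux {v : ι → Bool} (hv : v ∈ S) {a b c a' b' : ι} (h : Opp S v a b c) (h' : Opp S v a' b' c)
    (h1 : ¬ Cross S a a') (h2 : ¬ Cross S a b') {z : ι → Bool} (hz : z ∈ S)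
    (za : z a = !v a) (za' : z a' = !v a') (zb' : z b' = !v b') : False := by
  have r1 : (¬ P2 S a a' (v a) (!v a')) ∨ ¬ P2 S a a' (!v a) (v a') := by
    by_contra hh
    push Not at hh
    exact h1 (cross_of hS hQ ⟨v, hv, rfl, rfl⟩ hh.1 hh.2 ⟨z, hz, za, za'⟩)
  have r2 : (¬ P2 S a b' (v a) (!v b')) ∨ ¬ P2 S a b' (!v a) (v b') := by
    by_contra hh
    push Not at hh
    exact h2 (cross_of hS hQ ⟨v, hv, rfl, rfl⟩ hh.1 hh.2 ⟨z, hz, za, zb'⟩)
  rcases r1 with r1 | r1 <;> rcases r2 with r2 | r2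
  · obtain ⟨x, hx, xa, xc⟩ := h.1.ik (v a) (!v c)
    have e1 : x a' = v a' := by
      by_contra hh; exact r1 ⟨x, hx, xa, bne_ hh⟩
    have e2 : x b' = v b' := by
      by_contra hh; exact r2 ⟨x, hx, xa, bne_ hh⟩
    have := h'.imp x hx e1 e2
    rw [xc] at this
    cases hh : v c <;> rw [hh] at this <;> simp at this
  · -- a ⟹ a', b' ⟹ a
    obtain ⟨x, hx, xa', xb'⟩ := h'.1.ij (!v a') (v b')
    rcases Bool.eq_or_eq_not (x a) (v a) with hh | hh
    · exact r1 ⟨x, hx, hh, xa'⟩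
    · exact r2 ⟨x, hx, hh, xb'⟩
  · obtain ⟨x, hx, xa', xb'⟩ := h'.1.ij (v a') (!v b')
    rcases Bool.eq_or_eq_not (x a) (v a) with hh | hh
    · exact r2 ⟨x, hx, hh, xb'⟩
    · exact r1 ⟨x, hx, hh, xa'⟩
  · obtain ⟨x, hx, xa, xb, xc⟩ := h.p4 hS hQ
    have e1 : x a' = !v a' := bne_ fun hh => r1 ⟨x, hx, xa, hh⟩
    have e2 : x b' = !v b' := bne_ fun hh => r2 ⟨x, hx, xa, hh⟩
    have := h'.imp' hS hQ x hx e1 e2
    rw [xc] at this
    cases hh : v c <;> rw [hh] at this <;> simp at this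

theorem n2 {v : ι → Bool} (hv : v ∈ S) {a b c a' b' : ι} (h : Opp S v a b c) (h' : Opp S v a' b' c)
    (h1 : ¬ Cross S a a') (h2 : ¬ Cross S a b') (h3 : ¬ Cross S b a') (h4 : ¬ Cross S b b') : False := by
  obtain ⟨z, hz, za', zb', zc⟩ := h'.p3 hS hQ
  rcases Bool.eq_or_eq_not (z a) (v a) with hh | hh
  · have zb : z b = !v b := bne_ fun hb => by
      rw [h.imp z hz hh hb] at zc
      cases h1 : v c <;> rw [h1] at zc <;> simp at zc
    exact n2aux hS hQ hv h.symm h' h3 h4 hz zb za' zb'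
  · exact n2aux hS hQ hv h h' h1 h2 hz hh za' zb'

/-- in a pencil with `s`, `t` bounding, `s` is not opposite -/
theorem bd {v : ι → Bool} (hv : v ∈ S) {s t i j : ι} (h1 : Opp S v s t i) (h2 : Opp S v s t j)
    (hij : i ≠ j) (h : Opp S v i j s) : False := by
  have ctij : C6 S t i j := by
    -- C6 s t i, C6 s t j -> C6 s i j, C6 t i j
    exact pencil hS hQ h1.1.perm1 h2.1.perm1 hij
  -- x : s = !, t = v, i = v ; then j = !
  obtain ⟨x, hx, xs, xt, xi⟩ := h1.p4 hS hQ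
  have xj : x j = !v j := bne_ fun hh => by
    rw [h.imp x hx xi hh] at xs
    cases h1 : v s <;> rw [h1] at xs <;> simp at xs
  obtain ⟨y, hy, ys, yt, yj⟩ := h2.p4 hS hQ
  have yi : y i = !v i := bne_ fun hh => by
    rw [h.imp y hy hh yj] at ys
    cases h1 : v s <;> rw [h1] at ys <;> simp at ys
  have nsi := h1.1.ik.ne
  have nsj := h2.1.ik.ne
  have nti := h1.1.jk.ne
  have ntj := h2.1.jk.ne
  have nst := h1.1.ij.ne
  obtain ⟨z, hz, hz1, hz2⟩ := between hS {s, t, i, j} hx hy (i := i) (j := j) (by simp) hij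
    (by rw [xi, yi]; cases v i <;> simp) (by rw [xj, yj]; cases v j <;> simp)
    (by intro m hm1 h h'; simp only [Finset.mem_insert, Finset.mem_singleton] at hm1
        rcases hm1 with rfl | rfl | rfl | rfl
        · rw [xs, ys]
        · rw [xt, yt]
        · exact absurd rfl h
        · exact absurd rfl h')
  have zs : z s = !v s := by rw [hz1 s (by simp) nsi nsj, xs]
  have zt : z t = v t := by rw [hz1 t (by simp) nti ntj, xt]
  rcases hz2 with ⟨h3, h4⟩ | ⟨_, h3, h4⟩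
  · -- z i = !v i, z j = !v j, z t = v t
    have zi : z i = !v i := by rw [h3, yi]
    have zj : z j = !v j := by rw [h4 (by simp), xj]
    rcases exists_opp hS hQ hv ctij with ho | ho | ho
    · -- (t,i) -> j ; x has t = v, i = v, j = !
      have := ho.imp x hx xt xi
      rw [xj] at this; cases h1 : v j <;> rw [h1] at this <;> simp at this
    · -- Opp i j t
      have := ho.imp' hS hQ z hz zi zj
      rw [zt] at this; cases h1 : v t <;> rw [h1] at this <;> simp at this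
    · -- Opp t j i
      have := ho.imp y hy yt yj
      rw [yi] at this; cases h1 : v i <;> rw [h1] at this <;> simp at this
  · have zi : z i = v i := by rw [h3, xi]
    have zj : z j = v j := by rw [h4, yj]
    have := h.imp z hz zi zj
    rw [zs] at this; cases h1 : v s <;> rw [h1] at this <;> simp at this

/-- uniqueness of the opposite class -/
theorem opp_unique {v : ι → Bool} (hv : v ∈ S) {a b c : ι} (h1 : Opp S v a b c) (h2 : Opp S v a c b) :
    False := by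
  obtain ⟨x, hx, xa, xb, xc⟩ := h1.p5 hS hQ
  have := h2.imp x hx xa xc
  rw [xb] at this; cases h1 : v b <;> rw [h1] at this <;> simp at this

end
end N431.Hyp
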