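import Pool.Agent.N431.Hyp.Tri

namespace N431.Hyp

variable {ι : Type*} [DecidableEq ι] [Fintype ι]

set_option linter.unusedSectionVars false

section
variable {S : Set (ι → Bool)}

lemma notP3 {i j k : ι} {a b c : Bool} (h : ¬ P3 S i j k a b c) :
    ∀ x ∈ S, x i = a → x j = b → x k = !c := by
  intro x hx h1 h2
  by_contra h3
  exact h ⟨x, hx, h1, h2, by cases h4 : x k <;> cases c <;> simp_all⟩

lemma notP2 {i j : ι} {a b : Bool} (h : ¬ P2 S i j a b) :
    ∀ x ∈ S, x i = a → x j = !b := by
  intro x hx h1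
  by_contra h3
  exact h ⟨x, hx, h1, by cases h4 : x j <;> cases b <;> simp_all⟩

lemma C6.perm1 {i j k : ι} (h : C6 S i j k) : C6 S j i k := by
  obtain ⟨h1, h2, h3, a, b, c, h4⟩ := h
  exact ⟨h1.symm, h3, h2, b, a, c, fun ⟨x, hx, p, q, r⟩ => h4 ⟨x, hx, q, p, r⟩⟩

lemma C6.perm2 {i j k : ι} (h : C6 S i j k) : C6 S i k j := by
  obtain ⟨h1, h2, h3, a, b, c, h4⟩ := h
  exact ⟨h2, h1, h3.symm, a, c, b, fun ⟨x, hx, p, q, r⟩ => h4 ⟨x, hx, p, r, q⟩⟩

/-- kij -/
lemma C6.rot {i j k : ι} (h : C6 S i j k) : C6 S k i j := h.perm2.perm1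
lemma C6.rot' {i j k : ι} (h : C6 S i j k) : C6 S j k i := h.perm1.perm2

lemma c6_or_full {i j k : ι} (h1 : Cross S i j) (h2 : Cross S i k) (h3 : Cross S j k) :
    C6 S i j k ∨ ∀ a b c, P3 S i j k a b c := by
  by_cases h : ∃ a b c, ¬ P3 S i j k a b c
  · exact Or.inl ⟨h1, h2, h3, h⟩
  · push Not at h; exact Or.inr h

/-- missing pattern of a concurrent triple, normalised at the first coordinate -/
lemma C6.norm (hS : Isom S) (hQ : NoQ S) {i j k : ι} (h : C6 S i j k) (a : Bool) :
    ∃ b c, ¬ P3 S i j k a b c := by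
  obtain ⟨h1, h2, h3, a', b, c, h4⟩ := h
  rcases Bool.eq_or_eq_not a' a with rfl | rfl
  · exact ⟨b, c, h4⟩
  · have := (triple hS hQ h1 h2 h3 h4).2.2.2.2.2.2
    rw [Bool.not_not] at this
    exact ⟨_, _, this⟩

variable (hS : Isom S) (hQ : NoQ S)
include hS hQ

/-- sub-lemma for case 1 -/
lemma caseOne {i j k l : ι} {a b c c' : Bool} (h1 : C6 S i j k) (h2 : C6 S i j l) (hkl : k ≠ l)
    (hm : ¬ P3 S i j k a b c) (hm' : ¬ P3 S i j l a b c') : P2 S k l c (!c') := by
  by_contra hno
  obtain ⟨_, a2, _, _, _, _, a7⟩ := triple hS hQ h1.ij h1.ik h1.jk hm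
  obtain ⟨_, b2, b3, _, _, b6, b7⟩ := triple hS hQ h2.ij h2.ik h2.jk hm'
  obtain ⟨a1, _, _, _, _, _, _⟩ := triple hS hQ h1.ij h1.ik h1.jk hm
  obtain ⟨_, _, _, _, b5, _, _⟩ := triple hS hQ h2.ij h2.ik h2.jk hm'
  have F1 := notP3 hm
  have F2 := notP3 a7
  have G1 := notP3 hm'
  have G2 := notP3 b7
  have N := notP2 hno
  simp only [Bool.not_not] at F2 G2 N
  have nij := h1.ij.ne
  have nik := h1.ik.ne
  have njk := h1.jk.ne
  have nil := h2.ik.ne
  have njl := h2.jk.ne
  -- z with (a, !b, !c, c')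
  have Z : ∃ z ∈ S, z i = a ∧ z j = !b ∧ z k = !c ∧ z l = c' := by
    obtain ⟨x, hx, x1, x2, x3⟩ := a2
    obtain ⟨y, hy, y1, y2, y3⟩ := b6
    have x4 := N x hx x3
    have y4 : y k = !c := by
      by_contra h
      have : y k = c := by cases h5 : y k <;> cases c <;> simp_all
      have := N y hy this
      rw [y3] at this
      cases c' <;> simp at this
    obtain ⟨z, hz, hz1, hz2⟩ := between hS {i, j, k, l} hx hy (i := k) (j := l) (by simp) hkl
      (by rw [x3, y4]; cases c <;> simp) (by rw [x4, y3]; cases c' <;> simp)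
      (by intro m hm1 h h'; simp only [Finset.mem_insert, Finset.mem_singleton] at hm1
          rcases hm1 with rfl | rfl | rfl | rfl
          · rw [x1, y1]
          · rw [x2, y2]
          · exact absurd rfl h
          · exact absurd rfl h')
    have z1 : z i = a := by rw [hz1 i (by simp) nik nil, x1]
    have z2 : z j = !b := by rw [hz1 j (by simp) njk njl, x2]
    rcases hz2 with ⟨h3, h4⟩ | ⟨_, h3, h4⟩
    · exact ⟨z, hz, z1, z2, by rw [h3, y4], by rw [h4 (by simp), x4]⟩
    · exfalso
      have := N z hz (by rw [h3, x3])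
      rw [h4, y3] at this
      cases c' <;> simp at this
  have Z' : ∃ z ∈ S, z i = !a ∧ z j = b ∧ z k = !c ∧ z l = c' := by
    obtain ⟨x, hx, x1, x2, x3⟩ := a1
    obtain ⟨y, hy, y1, y2, y3⟩ := b5
    have x4 := N x hx x3
    have y4 : y k = !c := by
      by_contra h
      have : y k = c := by cases h5 : y k <;> cases c <;> simp_all
      have := N y hy this
      rw [y3] at this
      cases c' <;> simp at this
    obtain ⟨z, hz, hz1, hz2⟩ := between hS {i, j, k, l} hx hy (i := k) (j := l) (by simp) hkl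
      (by rw [x3, y4]; cases c <;> simp) (by rw [x4, y3]; cases c' <;> simp)
      (by intro m hm1 h h'; simp only [Finset.mem_insert, Finset.mem_singleton] at hm1
          rcases hm1 with rfl | rfl | rfl | rfl
          · rw [x1, y1]
          · rw [x2, y2]
          · exact absurd rfl h
          · exact absurd rfl h')
    have z1 : z i = !a := by rw [hz1 i (by simp) nik nil, x1]
    have z2 : z j = b := by rw [hz1 j (by simp) njk njl, x2]
    rcases hz2 with ⟨h3, h4⟩ | ⟨_, h3, h4⟩
    · exact ⟨z, hz, z1, z2, by rw [h3, y4], by rw [h4 (by simp), x4]⟩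
    · exfalso
      have := N z hz (by rw [h3, x3])
      rw [h4, y3] at this
      cases c' <;> simp at this
  obtain ⟨x, hx, x1, x2, x3, x4⟩ := Z
  obtain ⟨y, hy, y1, y2, y3, y4⟩ := Z'
  obtain ⟨z, hz, hz1, hz2⟩ := between hS {i, j, k, l} hx hy (i := i) (j := j) (by simp) nij
    (by rw [x1, y1]; cases a <;> simp) (by rw [x2, y2]; cases b <;> simp)
    (by intro m hm1 h h'; simp only [Finset.mem_insert, Finset.mem_singleton] at hm1
        rcases hm1 with rfl | rfl | rfl | rfl
        · exact absurd rfl h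
        · exact absurd rfl h'
        · rw [x3, y3]
        · rw [x4, y4])
  have z3 : z k = !c := by rw [hz1 k (by simp) nik.symm njk.symm, x3]
  have z4 : z l = c' := by rw [hz1 l (by simp) nil.symm njl.symm, x4]
  rcases hz2 with ⟨h3, h4⟩ | ⟨_, h3, h4⟩
  · -- z i = !a, z j = !b
    have := F2 z hz (by rw [h3, y1]) (by rw [h4 (by simp), x2])
    rw [z3] at this; cases c <;> simp at this
  · have := G1 z hz (by rw [h3, x1]) (by rw [h4, y2])
    rw [z4] at this; cases c' <;> simp at this

/-- Lemma A : pencils -/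
theorem pencil {i j k l : ι} (h1 : C6 S i j k) (h2 : C6 S i j l) (hkl : k ≠ l) : C6 S i k l := by
  obtain ⟨a, b, c, hm⟩ := h1.miss
  obtain ⟨b', c', hm'⟩ := h2.norm hS hQ a
  obtain ⟨_, _, _, _, _, _, a7⟩ := triple hS hQ h1.ij h1.ik h1.jk hm
  obtain ⟨b1, b2, b3, b4, b5, b6, b7⟩ := triple hS hQ h2.ij h2.ik h2.jk hm'
  have nij := h1.ij.ne
  have nik := h1.ik.ne
  have njk := h1.jk.ne
  have nil := h2.ik.ne
  have njl := h2.jk.ne
  rcases Bool.eq_or_eq_not b' b with rfl | rfl
  · -- case 1
    have F1 := notP3 hm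
    have F2 := notP3 a7
    have G1 := notP3 hm'
    have G2 := notP3 b7
    simp only [Bool.not_not] at F2 G2
    have X1 : P2 S k l c (!c') := caseOne hS hQ h1 h2 hkl hm hm'
    have X2 : P2 S k l (!c) c' := by
      have := caseOne hS hQ h1 h2 hkl a7 b7
      rwa [Bool.not_not] at this
    have X3 : P2 S k l (!c) (!c') := by
      obtain ⟨x, hx, x1, x2⟩ := h1.ij a b'
      exact ⟨x, hx, F1 x hx x1 x2, G1 x hx x1 x2⟩
    have X4 : P2 S k l c c' := by
      obtain ⟨x, hx, x1, x2⟩ := h1.ij (!a) (!b')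
      exact ⟨x, hx, F2 x hx x1 x2, G2 x hx x1 x2⟩
    have hcr : Cross S k l := by
      intro p q
      rcases Bool.eq_or_eq_not p c with rfl | rfl <;> rcases Bool.eq_or_eq_not q c' with rfl | rfl <;>
        assumption
    refine ⟨h1.ik, h2.ik, hcr, ?_⟩
    by_contra hall
    push Not at hall
    obtain ⟨x, hx, x1, x3, x4⟩ := hall a c (!c')
    obtain ⟨y, hy, y1, y3, y4⟩ := hall (!a) c (!c')
    have x2 : x j = !b' := by
      by_contra h
      have : x j = b' := by cases h5 : x j <;> cases b' <;> simp_all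
      have := F1 x hx x1 this
      rw [x3] at this; cases c <;> simp at this
    have y2 : y j = b' := by
      by_contra h
      have : y j = !b' := by cases h5 : y j <;> cases b' <;> simp_all
      have := G2 y hy y1 this
      rw [y4] at this; cases c' <;> simp at this
    obtain ⟨z, hz, hz1, hz2⟩ := between hS {i, j, k, l} hx hy (i := i) (j := j) (by simp) nij
      (by rw [x1, y1]; cases a <;> simp) (by rw [x2, y2]; cases b' <;> simp)
      (by intro m hm1 h h'; simp only [Finset.mem_insert, Finset.mem_singleton] at hm1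
          rcases hm1 with rfl | rfl | rfl | rfl
          · exact absurd rfl h
          · exact absurd rfl h'
          · rw [x3, y3]
          · rw [x4, y4])
    have z3 : z k = c := by rw [hz1 k (by simp) nik.symm njk.symm, x3]
    have z4 : z l = !c' := by rw [hz1 l (by simp) nil.symm njl.symm, x4]
    rcases hz2 with ⟨h3, h4⟩ | ⟨_, h3, h4⟩
    · have := G2 z hz (by rw [h3, y1]) (by rw [h4 (by simp), x2])
      rw [z4] at this; cases c' <;> simp at this
    · have := F1 z hz (by rw [h3, x1]) (by rw [h4, y2])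
      rw [z3] at this; cases c <;> simp at this
  · -- case 2
    simp only [Bool.not_not] at b1 b2 b3 b4 b5 b6 b7
    have F1 := notP3 hm
    have F2 := notP3 a7
    have G1 := notP3 hm'
    have G2 := notP3 b7
    simp only [Bool.not_not] at F2 G2
    have hcr : Cross S k l := by
      intro p q
      rcases Bool.eq_or_eq_not p c with rfl | rfl
      · -- k = c : i = !a, j = !b
        rcases Bool.eq_or_eq_not q c' with rfl | rfl
        · obtain ⟨x, hx, x1, x2, x3⟩ := b1
          exact ⟨x, hx, F2 x hx x1 x2, x3⟩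
        · obtain ⟨x, hx, x1, x2, x3⟩ := b5
          exact ⟨x, hx, F2 x hx x1 x2, x3⟩
      · rcases Bool.eq_or_eq_not q c' with rfl | rfl
        · obtain ⟨x, hx, x1, x2, x3⟩ := b2
          exact ⟨x, hx, F1 x hx x1 x2, x3⟩
        · obtain ⟨x, hx, x1, x2, x3⟩ := b6
          exact ⟨x, hx, F1 x hx x1 x2, x3⟩
    refine ⟨h1.ik, h2.ik, hcr, a, c, c', ?_⟩
    rintro ⟨x, hx, x1, x3, x4⟩
    rcases Bool.eq_or_eq_not (x j) b with h | h
    · have := F1 x hx x1 h
      rw [x3] at this; cases c <;> simp at this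
    · have := G1 x hx x1 h
      rw [x4] at this; cases c' <;> simp at this

/-- crossing two members of a pencil implies crossing the third -/
lemma third {a b c l : ι} (h : C6 S a b c) (h1 : Cross S l a) (h2 : Cross S l b) (hlc : l ≠ c) :
    Cross S l c := by
  rcases c6_or_full h.ij h1.symm h2.symm with h3 | h3
  · exact (pencil hS hQ h h3 hlc.symm).jk.symm
  · obtain ⟨p, q, r, hm⟩ := h.miss
    have a7 := (triple hS hQ h.ij h.ik h.jk hm).2.2.2.2.2.2
    have F1 := notP3 hm
    have F2 := notP3 a7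
    simp only [Bool.not_not] at F2
    intro u w
    rcases Bool.eq_or_eq_not w r with rfl | rfl
    · obtain ⟨x, hx, x1, x2, x3⟩ := h3 (!p) (!q) u
      exact ⟨x, hx, x3, F2 x hx x1 x2⟩
    · obtain ⟨x, hx, x1, x2, x3⟩ := h3 p q u
      exact ⟨x, hx, x3, F1 x hx x1 x2⟩

/-- Lemma B -/
theorem lemB {i t s k r : ι} (h1 : C6 S i t s) (h2 : C6 S i k r) (htk : t ≠ k) (hc : Cross S t k) :
    C6 S i t k := by
  by_contra hno
  have full_itk : ∀ a b c, P3 S i t k a b c := (c6_or_full h1.ij h2.ij hc).resolve_left hno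
  have hks : k ≠ s := by rintro rfl; exact hno h1
  have htr : t ≠ r := by rintro rfl; exact hno h2.perm2
  have hsr : s ≠ r := by
    rintro rfl
    exact hno (pencil hS hQ h1.perm2 h2.perm2 htk)
  have cks : Cross S k s := third hS hQ h1 h2.ij.symm hc.symm hks
  have ctr : Cross S t r := third hS hQ h2 h1.ij.symm hc htr
  have full_iks : ∀ a b c, P3 S i k s a b c := by
    refine (c6_or_full h2.ij h1.ik cks).resolve_left (fun h => hno ?_)
    exact (pencil hS hQ h.perm2 h1.perm2 htk.symm).perm2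
  obtain ⟨a, b, c, hm⟩ := h1.miss
  obtain ⟨b', c', hm'⟩ := h2.norm hS hQ a
  have a7 := (triple hS hQ h1.ij h1.ik h1.jk hm).2.2.2.2.2.2
  have b7 := (triple hS hQ h2.ij h2.ik h2.jk hm').2.2.2.2.2.2
  have F1 := notP3 hm
  have F2 := notP3 a7
  have G1 := notP3 hm'
  have G2 := notP3 b7
  simp only [Bool.not_not] at F2 G2
  have csr : Cross S s r := by
    intro p q
    rcases Bool.eq_or_eq_not q c' with rfl | rfl
    · obtain ⟨x, hx, x1, x2, x3⟩ := full_iks (!a) (!b') p
      exact ⟨x, hx, x3, G2 x hx x1 x2⟩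
    · obtain ⟨x, hx, x1, x2, x3⟩ := full_iks a b' p
      exact ⟨x, hx, x3, G1 x hx x1 x2⟩
  have f1 : ∀ a b c, P3 S t k s a b c := by
    refine (c6_or_full hc h1.jk cks).resolve_left (fun h => hno ?_)
    -- C6 t k s and C6 t s i -> C6 t k i
    exact (pencil hS hQ h.perm2 h1.rot' h2.ij.ne.symm).rot
  have f2 : ∀ a b c, P3 S t k r a b c := by
    refine (c6_or_full hc ctr h2.jk).resolve_left (fun h => hno ?_)
    -- C6 k r t, C6 k r i -> C6 k t i
    have := pencil hS hQ h.rot' h2.rot' h1.ij.ne.symm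
    exact this.rot.perm2
  have f3 : ∀ a b c, P3 S t s r a b c := by
    refine (c6_or_full h1.jk ctr csr).resolve_left (fun h => hno ?_)
    -- C6 t s r, C6 t s i -> C6 t r i ; then C6 i r t, C6 i r k -> C6 i t k
    have h3 := pencil hS hQ h h1.rot' h2.ik.ne.symm
    exact pencil hS hQ h3.rot.perm2 h2.perm2 htk
  have f4 : ∀ a b c, P3 S k s r a b c := by
    refine (c6_or_full cks h2.jk csr).resolve_left (fun h => hno ?_)
    -- C6 k r s, C6 k r i -> C6 k s i ; C6 i s k, C6 i s t -> C6 i t k
    have h3 := pencil hS hQ h.perm2 h2.rot' h1.ik.ne.symm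
    exact pencil hS hQ h1.perm2 h3.rot.perm2 htk
  -- determined on {t,k,s,r}
  let e : ι → Bool := fun m => if m = t then !b else if m = k then b' else if m = s then !c else c'
  have et : e t = !b := by simp [e]
  have ek : e k = b' := by simp [e, htk.symm]
  have es : e s = !c := by simp [e, h1.jk.ne.symm, hks.symm]
  have er : e r = c' := by simp [e, htr.symm, h2.jk.ne.symm, hsr.symm]
  have hcard : ({t, k, s, r} : Finset ι).card = 4 := by
    rw [Finset.card_eq_four]
    exact ⟨t, k, s, r, htk, h1.jk.ne, htr, hks, h2.jk.ne, hsr, rfl⟩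
  obtain ⟨x, hx, hxe⟩ := determined hS hQ e _ ({t, k, s, r} : Finset ι) rfl (by
    intro T' hT' hc3
    obtain ⟨m, hm, hmT⟩ : ∃ m ∈ ({t, k, s, r} : Finset ι), m ∉ T' := by
      by_contra h
      push Not at h
      have := Finset.card_le_card h
      omega
    simp only [Finset.mem_insert, Finset.mem_singleton] at hm
    rcases hm with rfl | rfl | rfl | rfl
    · obtain ⟨x, hx, x1, x2, x3⟩ := f4 b' (!c) c'
      refine ⟨x, hx, fun u hu => ?_⟩
      have := hT' hu
      simp only [Finset.mem_insert, Finset.mem_singleton] at this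
      rcases this with rfl | rfl | rfl | rfl
      · exact absurd hu hmT
      · rw [x1, ek]
      · rw [x2, es]
      · rw [x3, er]
    · obtain ⟨x, hx, x1, x2, x3⟩ := f3 (!b) (!c) c'
      refine ⟨x, hx, fun u hu => ?_⟩
      have := hT' hu
      simp only [Finset.mem_insert, Finset.mem_singleton] at this
      rcases this with rfl | rfl | rfl | rfl
      · rw [x1, et]
      · exact absurd hu hmT
      · rw [x2, es]
      · rw [x3, er]
    · obtain ⟨x, hx, x1, x2, x3⟩ := f2 (!b) b' c'
      refine ⟨x, hx, fun u hu => ?_⟩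
      have := hT' hu
      simp only [Finset.mem_insert, Finset.mem_singleton] at this
      rcases this with rfl | rfl | rfl | rfl
      · rw [x1, et]
      · rw [x2, ek]
      · exact absurd hu hmT
      · rw [x3, er]
    · obtain ⟨x, hx, x1, x2, x3⟩ := f1 (!b) b' (!c)
      refine ⟨x, hx, fun u hu => ?_⟩
      have := hT' hu
      simp only [Finset.mem_insert, Finset.mem_singleton] at this
      rcases this with rfl | rfl | rfl | rfl
      · rw [x1, et]
      · rw [x2, ek]
      · rw [x3, es]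
      · exact absurd hu hmT)
  have x1 : x t = !b := by rw [hxe t (by simp), et]
  have x2 : x k = b' := by rw [hxe k (by simp), ek]
  have x3 : x s = !c := by rw [hxe s (by simp), es]
  have x4 : x r = c' := by rw [hxe r (by simp), er]
  rcases Bool.eq_or_eq_not (x i) a with h | h
  · have := G1 x hx h x2
    rw [x4] at this; cases c' <;> simp at this
  · have := F2 x hx h x1
    rw [x3] at this; cases c <;> simp at this

end
end N431.Hyp
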