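import Pool.Agent.N431.Hyp.Fan

namespace N431.Hyp

variable {ι : Type*} [DecidableEq ι] [Fintype ι]

set_option linter.unusedSectionVars false

variable {S : Set (ι → Bool)}

/-- every coordinate takes both values -/
def NC (S : Set (ι → Bool)) : Prop := ∀ i b, ∃ x ∈ S, x i = b

/-- pencils -/
structure IsPen (S : Set (ι → Bool)) (P : Finset ι) : Prop where
  clq : Clq S P
  card : 3 ≤ P.card
  closed : ∀ a ∈ P, ∀ b ∈ P, ∀ c, C6 S a b c → c ∈ P

section
variable (hS : Isom S) (hQ : NoQ S)
include hS hQ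

lemma pen_exists {i j k : ι} (h : C6 S i j k) : ∃ P, IsPen S P ∧ i ∈ P ∧ j ∈ P ∧ k ∈ P := by
  classical
  let P : Finset ι := Finset.univ.filter (fun l => l = i ∨ l = j ∨ C6 S i j l)
  have hP : ∀ l, l ∈ P ↔ (l = i ∨ l = j ∨ C6 S i j l) := fun l => by simp [P]
  have nij := h.ij.ne
  have hi : i ∈ P := (hP i).2 (Or.inl rfl)
  have hj : j ∈ P := (hP j).2 (Or.inr (Or.inl rfl))
  have hk : k ∈ P := (hP k).2 (Or.inr (Or.inr h))
  have clq : Clq S P := by
    intro p hp q hq r hr hpq hpr hqr
    rcases (hP p).1 hp with rfl | rfl | hp <;> rcases (hP q).1 hq with rfl | rfl | hq <;>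
      rcases (hP r).1 hr with rfl | rfl | hr
    all_goals first
      | exact absurd rfl hpq
      | exact absurd rfl hpr
      | exact absurd rfl hqr
      | skip
    · exact hr
    · exact hq.perm2
    · exact pencil hS hQ hq hr hqr
    · exact hr.perm1
    · exact hq.rot'
    · exact pencil hS hQ hq.perm1 hr.perm1 hqr
    · exact hp.rot
    · exact (pencil hS hQ hp hr hpr).perm1
    · exact hp.rot.perm2
    · exact (pencil hS hQ hp.perm1 hr.perm1 hpr).perm1
    · exact (pencil hS hQ hp hq hpq).rot'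
    · exact (pencil hS hQ hp.perm1 hq.perm1 hpq).rot'
    · have h1 := pencil hS hQ hp hq hpq
      have h2 := pencil hS hQ hp hr hpr
      exact pencil hS hQ h1.perm1 h2.perm1 hqr
  refine ⟨P, ⟨clq, ?_, ?_⟩, hi, hj, hk⟩
  · have : ({i, j, k} : Finset ι) ⊆ P := by
      intro x hx
      simp only [Finset.mem_insert, Finset.mem_singleton] at hx
      rcases hx with rfl | rfl | rfl <;> assumption
    have h3 : ({i, j, k} : Finset ι).card = 3 := by
      rw [Finset.card_eq_three]; exact ⟨i, j, k, nij, h.ik.ne, h.jk.ne, rfl⟩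
    calc 3 = _ := h3.symm
      _ ≤ _ := Finset.card_le_card this
  · intro a ha b hb c hc
    by_cases hci : c = i
    · exact hci ▸ hi
    by_cases hcj : c = j
    · exact hcj ▸ hj
    have nab := hc.ij.ne
    have key : ∀ a b, a ∈ P → b ∈ P → C6 S a b c → a = i → c ∈ P := by
      intro a b ha hb hc hai
      subst hai
      rcases (hP b).1 hb with hb | hb | hb
      · exact absurd hb.symm hc.ij.ne
      · subst hb; exact (hP c).2 (Or.inr (Or.inr hc))
      · exact (hP c).2 (Or.inr (Or.inr (pencil hS hQ hb.perm2 hc (Ne.symm hcj))))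
    by_cases hai : a = i
    · exact key a b ha hb hc hai
    by_cases hbi : b = i
    · exact key b a hb ha hc.perm1 hbi
    -- both a, b ≠ i : C6 a b i and C6 a b c give C6 a i c
    have h1 : C6 S a b i := clq a ha b hb i hi nab hai hbi
    have h2 := pencil hS hQ h1 hc (Ne.symm hci)
    exact key i a hi ha h2.perm1 rfl

lemma pen_unique {P P' : Finset ι} (hP : IsPen S P) (hP' : IsPen S P') {a b : ι} (ha : a ∈ P) (hb : b ∈ P)
    (ha' : a ∈ P') (hb' : b ∈ P') (hab : a ≠ b) : P = P' := by
  have key : ∀ P P' : Finset ι, IsPen S P → IsPen S P' → a ∈ P → b ∈ P → a ∈ P' → b ∈ P' → P ⊆ P' := by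
    intro P P' hP hP' ha hb ha' hb' c hc
    by_cases h1 : c = a
    · exact h1 ▸ ha'
    by_cases h2 : c = b
    · exact h2 ▸ hb'
    exact hP'.closed a ha' b hb' c (hP.clq a ha b hb c hc hab (Ne.symm h1) (Ne.symm h2))
  exact Finset.Subset.antisymm (key P P' hP hP' ha hb ha' hb') (key P' P hP' hP ha' hb' ha hb)

lemma sub_trans {v : ι → Bool} (hv : v ∈ S) (hN : NC S) {l j i : ι} (h1 : Sub S v l j) (h2 : Sub S v j i) :
    Sub S v l i := by
  refine ⟨?_, ?_⟩
  · rintro rfl
    obtain ⟨x, hx, hxl⟩ := hN l (!v l)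
    have hxj := h2.imp' x hx hxl
    obtain ⟨z, hz, hz1, hz2⟩ := between hS {l, j} hv hx (i := l) (j := j) (by simp) h1.1
      (by rw [hxl]; cases v l <;> simp) (by rw [hxj]; cases v j <;> simp)
      (by intro m hm h h'; simp only [Finset.mem_insert, Finset.mem_singleton] at hm
          rcases hm with rfl | rfl
          · exact absurd rfl h
          · exact absurd rfl h')
    rcases hz2 with ⟨h3, h4⟩ | ⟨_, h3, h4⟩
    · have := h2.imp z hz (h4 (by simp))
      rw [h3, hxl] at this; cases h1 : v l <;> rw [h1] at this <;> simp at this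
    · have := h1.imp z hz h3
      rw [h4, hxj] at this; cases h1 : v j <;> rw [h1] at this <;> simp at this
  · rintro ⟨x, hx, x1, x2⟩
    have := h2.imp x hx (h1.imp x hx x1)
    rw [x2] at this; cases h1 : v i <;> rw [h1] at this <;> simp at this

section vertex

variable {v : ι → Bool} (hv : v ∈ S) (hN : NC S) (u : Finset ι → ι → ℝ × ℝ) (s t : Finset ι → ι)
  (hB : ∀ P, IsPen S P → Bnd S P (u P) v (s P) (t P))
include hv hN hB

lemma nb_unique {P P' : Finset ι} (hP : IsPen S P) (hP' : IsPen S P') {i : ι} (hi : i ∈ P) (hi' : i ∈ P')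
    (h1 : i ≠ s P) (h2 : i ≠ t P) (h3 : i ≠ s P') (h4 : i ≠ t P') : P = P' := by
  by_contra hne
  have hb := hB P hP
  have hb' := hB P' hP'
  have o := (hb.oth i hi h1 h2).1
  have o' := (hb'.oth i hi' h3 h4).1
  have key : ∀ a b a' b', a ∈ P → a' ∈ P' → C6 S i a b → C6 S i a' b' → ¬ Cross S a a' := by
    intro a b a' b' ha ha' c c' hc
    have := lemB hS hQ c c' hc.ne hc
    have ha'P : a' ∈ P := hP.closed i hi a ha a' this
    exact hne (pen_unique hS hQ hP hP' hi ha'P hi' ha' c'.ij.ne)
  exact n2 hS hQ hv o o' (key _ _ _ _ hb.hs hb'.hs o.1.rot o'.1.rot)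
    (key _ _ _ _ hb.hs hb'.ht o.1.rot o'.1.rot.perm2)
    (key _ _ _ _ hb.ht hb'.hs o.1.rot.perm2 o'.1.rot)
    (key _ _ _ _ hb.ht hb'.ht o.1.rot.perm2 o'.1.rot.perm2)

/-- non-boundary classes relative to `v` -/
def NB (S : Set (ι → Bool)) (s t : Finset ι → ι) (i : ι) : Prop :=
  ∃ P, IsPen S P ∧ i ∈ P ∧ i ≠ s P ∧ i ≠ t P

open Classical in
/-- number of classes below `i` -/
noncomputable def Mn (S : Set (ι → Bool)) (v : ι → Bool) (i : ι) : ℕ :=
  (Finset.univ.filter (fun l => Sub S v l i)).card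

open Classical in
/-- the measure -/
noncomputable def mu (S : Set (ι → Bool)) (v : ι → Bool) (s t : Finset ι → ι) (i : ι) : ℕ :=
  2 * Mn S v i + (if NB S s t i then 1 else 0)

omit hB in
lemma Mn_lt {j i : ι} (h : Sub S v j i) : Mn S v j < Mn S v i := by
  classical
  unfold Mn
  apply Finset.card_lt_card
  refine ⟨fun l hl => ?_, fun hsub => ?_⟩
  · simp only [Finset.mem_filter, Finset.mem_univ, true_and] at hl ⊢
    exact sub_trans hS hQ hv hN hl h
  · have := hsub (Finset.mem_filter.2 ⟨Finset.mem_univ j, h⟩)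
    simp only [Finset.mem_filter, Finset.mem_univ, true_and] at this
    exact this.1 rfl

omit hB in
lemma mu_lt_of_sub {j i : ι} (h : Sub S v j i) : mu S v s t j < mu S v s t i := by
  have := Mn_lt hS hQ hv hN h
  unfold mu
  split_ifs <;> omega

omit hB in
lemma Mn_le {a b c : ι} (h : Opp S v a b c) : Mn S v a ≤ Mn S v c := by
  classical
  unfold Mn
  apply Finset.card_le_card
  intro l hl
  simp only [Finset.mem_filter, Finset.mem_univ, true_and] at hl ⊢
  exact n3a hS hQ hv h hl

lemma mu_bd {P : Finset ι} (hP : IsPen S P) {c a b : ι} (hc : c ∈ P) (h1 : c ≠ s P) (h2 : c ≠ t P)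
    (ha : a ∈ P) (hb : b ∈ P) (hab : Opp S v a b c) (hbd : a = s P ∨ a = t P) :
    mu S v s t a < mu S v s t c := by
  classical
  have hNBc : NB S s t c := ⟨P, hP, hc, h1, h2⟩
  have hle := Mn_le hS hQ hv hN hab
  unfold mu
  rw [if_pos hNBc]
  by_cases hNBa : NB S s t a
  · rw [if_pos hNBa]
    obtain ⟨P', hP', ha', h3, h4⟩ := hNBa
    have hne : P ≠ P' := by
      rintro rfl
      rcases hbd with h | h
      · exact h3 h
      · exact h4 h
    have hb' := hB P' hP'
    have o' := (hb'.oth a ha' h3 h4).1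
    have nac : a ≠ c := hab.1.ik.ne
    have q1 : s P' ≠ c := fun h => hne (pen_unique hS hQ hP hP' ha hc ha' (h ▸ hb'.hs) nac)
    have q2 : t P' ≠ c := fun h => hne (pen_unique hS hQ hP hP' ha hc ha' (h ▸ hb'.ht) nac)
    have key : ∀ a' b', a' ∈ P' → C6 S a a' b' → ¬ Cross S a' c := by
      intro a' b' ha'' c' hcr
      have h5 := lemB hS hQ c' hab.1.perm2 hcr.ne hcr
      have h6 : a' ∈ P := hP.closed a ha c hc a' h5.perm2
      exact hne (pen_unique hS hQ hP hP' ha h6 ha' ha'' c'.ij.ne)
    have hlt : Mn S v a < Mn S v c := by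
      unfold Mn
      apply Finset.card_lt_card
      refine ⟨fun l hl => ?_, fun hsub => ?_⟩
      · simp only [Finset.mem_filter, Finset.mem_univ, true_and] at hl ⊢
        exact n3a hS hQ hv hab hl
      · rcases n3b hS hQ hv hab o' q1 q2 (key _ _ hb'.hs o'.1.rot) (key _ _ hb'.ht o'.1.rot.perm2) with h | h
        · have := hsub (Finset.mem_filter.2 ⟨Finset.mem_univ _, h⟩)
          simp only [Finset.mem_filter, Finset.mem_univ, true_and] at this
          exact this.not_cross o'.1.ik
        · have := hsub (Finset.mem_filter.2 ⟨Finset.mem_univ _, h⟩)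
          simp only [Finset.mem_filter, Finset.mem_univ, true_and] at this
          exact this.not_cross o'.1.jk
    omega
  · rw [if_neg hNBa]; omega

/-- the recursive construction of distances -/
lemma exists_y : ∃ y : ι → ℝ, (∀ i, 0 < y i) ∧
    (∀ P, IsPen S P → ∀ i ∈ P, i ≠ s P → i ≠ t P → ∃ α β : ℝ, 1 ≤ α ∧ 1 ≤ β ∧
      sg (v i) • u P i = α • (sg (v (s P)) • u P (s P)) + β • (sg (v (t P)) • u P (t P)) ∧
      y i = α * y (s P) + β * y (t P)) ∧
    (∀ j i, Sub S v j i → y j < y i) := by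
  classical
  -- coefficients
  have hco : ∀ P i, ∃ αβ : ℝ × ℝ, IsPen S P → i ∈ P → i ≠ s P → i ≠ t P → 1 ≤ αβ.1 ∧ 1 ≤ αβ.2 ∧
      sg (v i) • u P i = αβ.1 • (sg (v (s P)) • u P (s P)) + αβ.2 • (sg (v (t P)) • u P (t P)) := by
    intro P i
    by_cases h : IsPen S P ∧ i ∈ P ∧ i ≠ s P ∧ i ≠ t P
    · obtain ⟨hP, hi, h1, h2⟩ := h
      obtain ⟨_, α, β, h3, h4, h5⟩ := (hB P hP).oth i hi h1 h2
      exact ⟨(α, β), fun _ _ _ _ => ⟨h3, h4, h5⟩⟩
    · exact ⟨(0, 0), fun a b c d => absurd ⟨a, b, c, d⟩ h⟩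
  choose co hco using hco
  -- step construction
  have step : ∀ N : ℕ, ∃ y : ι → ℝ, ∀ i, mu S v s t i < N → 0 < y i ∧
      (∀ P, IsPen S P → i ∈ P → i ≠ s P → i ≠ t P →
        y i = (co P i).1 * y (s P) + (co P i).2 * y (t P)) ∧
      (¬ NB S s t i → ∀ j, mu S v s t j < mu S v s t i → y j < y i) := by
    intro N
    induction N with
    | zero => exact ⟨fun _ => 0, fun i h => absurd h (Nat.not_lt_zero _)⟩
    | succ N ih =>
      obtain ⟨y, hy⟩ := ih
      let y' : ι → ℝ := fun i => if mu S v s t i < N then y i else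
        if h : NB S s t i then (co h.choose i).1 * y (s h.choose) + (co h.choose i).2 * y (t h.choose)
        else 1 + ∑ j ∈ Finset.univ.filter (fun j => mu S v s t j < N), y j
      have y'lt : ∀ i, mu S v s t i < N → y' i = y i := fun i hi => by simp only [y', if_pos hi]
      refine ⟨y', fun i hi => ?_⟩
      by_cases hiN : mu S v s t i < N
      · obtain ⟨h1, h2, h3⟩ := hy i hiN
        rw [y'lt i hiN]
        refine ⟨h1, fun P hP hiP h4 h5 => ?_, fun h4 j hj => ?_⟩
        · have o := ((hB P hP).oth i hiP h4 h5).1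
          have m1 := mu_bd hS hQ hv hN u s t hB hP hiP h4 h5 (hB P hP).hs (hB P hP).ht o (Or.inl rfl)
          have m2 := mu_bd hS hQ hv hN u s t hB hP hiP h4 h5 (hB P hP).ht (hB P hP).hs o.symm (Or.inr rfl)
          rw [y'lt _ (m1.trans hiN), y'lt _ (m2.trans hiN)]
          exact h2 P hP hiP h4 h5
        · rw [y'lt j (hj.trans hiN)]; exact h3 h4 j hj
      · have hiN' : mu S v s t i = N := by omega
        by_cases hNB : NB S s t i
        · have hy'i : y' i = (co hNB.choose i).1 * y (s hNB.choose) + (co hNB.choose i).2 * y (t hNB.choose) := by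
            simp only [y', if_neg hiN, dif_pos hNB]
          have hsp := hNB.choose_spec
          set Q := hNB.choose with hQdef
          obtain ⟨hQp, hiQ, hq1, hq2⟩ := hsp
          have o := ((hB Q hQp).oth i hiQ hq1 hq2).1
          have m1 := mu_bd hS hQ hv hN u s t hB hQp hiQ hq1 hq2 (hB Q hQp).hs (hB Q hQp).ht o (Or.inl rfl)
          have m2 := mu_bd hS hQ hv hN u s t hB hQp hiQ hq1 hq2 (hB Q hQp).ht (hB Q hQp).hs o.symm (Or.inr rfl)
          rw [hiN'] at m1 m2
          refine ⟨?_, fun P hP hiP h4 h5 => ?_, fun h => absurd hNB h⟩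
          · rw [hy'i]
            obtain ⟨c1, c2, _⟩ := hco Q i hQp hiQ hq1 hq2
            have p1 := (hy _ m1).1
            have p2 := (hy _ m2).1
            positivity
          · have hPQ : P = Q := nb_unique hS hQ hv hN u s t hB hP hQp hiP hiQ h4 h5 hq1 hq2
            subst hPQ
            rw [hy'i, y'lt _ m1, y'lt _ m2]
        · have hy'i : y' i = 1 + ∑ j ∈ Finset.univ.filter (fun j => mu S v s t j < N), y j := by
            simp only [y', if_neg hiN, dif_neg hNB]
          have hnn : ∀ j ∈ Finset.univ.filter (fun j => mu S v s t j < N), 0 ≤ y j := by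
            intro j hj
            simp only [Finset.mem_filter, Finset.mem_univ, true_and] at hj
            exact (hy j hj).1.le
          refine ⟨?_, fun P hP hiP h4 h5 => absurd ⟨P, hP, hiP, h4, h5⟩ hNB, fun _ j hj => ?_⟩
          · rw [hy'i]
            have := Finset.sum_nonneg hnn
            linarith
          · rw [hiN'] at hj
            rw [y'lt j hj, hy'i]
            have := Finset.single_le_sum hnn (Finset.mem_filter.2 ⟨Finset.mem_univ j, hj⟩)
            linarith
  obtain ⟨y, hy⟩ := step ((Finset.univ.sup (mu S v s t)) + 1)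
  have hall : ∀ i, mu S v s t i < (Finset.univ.sup (mu S v s t)) + 1 :=
    fun i => Nat.lt_succ_of_le (Finset.le_sup (f := mu S v s t) (Finset.mem_univ i))
  refine ⟨y, fun i => (hy i (hall i)).1, fun P hP i hi h1 h2 => ?_, ?_⟩
  · obtain ⟨c1, c2, c3⟩ := hco P i hP hi h1 h2
    exact ⟨_, _, c1, c2, c3, (hy i (hall i)).2.1 P hP hi h1 h2⟩
  · -- nested inequality by induction on mu i
    have : ∀ n i, mu S v s t i = n → ∀ j, Sub S v j i → y j < y i := by
      intro n
      induction n using Nat.strong_induction_on with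
      | _ n ih =>
        intro i hin j hji
        by_cases hNB : NB S s t i
        · obtain ⟨P, hP, hiP, h1, h2⟩ := hNB
          have o := ((hB P hP).oth i hiP h1 h2).1
          have m1 := mu_bd hS hQ hv hN u s t hB hP hiP h1 h2 (hB P hP).hs (hB P hP).ht o (Or.inl rfl)
          have m2 := mu_bd hS hQ hv hN u s t hB hP hiP h1 h2 (hB P hP).ht (hB P hP).hs o.symm (Or.inr rfl)
          obtain ⟨c1, c2, _⟩ := hco P i hP hiP h1 h2
          have he := (hy i (hall i)).2.1 P hP hiP h1 h2
          have p1 := (hy (s P) (hall _)).1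
          have p2 := (hy (t P) (hall _)).1
          rcases n1 hS hQ hv o hji with h | h
          · have := ih _ (hin ▸ m1) (s P) rfl j h
            rw [he]; nlinarith
          · have := ih _ (hin ▸ m2) (t P) rfl j h
            rw [he]; nlinarith
        · exact (hy i (hall i)).2.2 hNB j (mu_lt_of_sub hS hQ hv hN s t hji)
    exact fun j i h => this _ i rfl j h

end vertex

end

end N431.Hyp
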