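import Pool.Agent.N431.Hyp.Real

namespace N431.Hyp

variable {ι : Type*} [DecidableEq ι] [Fintype ι]

set_option linter.unusedSectionVars false

variable {S : Set (ι → Bool)}

/-- the inequalities for missing pairs -/
def PairIneq (S : Set (ι → Bool)) (x : ι → ℝ) : Prop :=
  ∀ i j, i ≠ j → ∀ a b, ¬ P2 S i j a b → sg a * x i + sg b * x j < 0

/-- the linear space cut out by the pencil relations -/
def WW (S : Set (ι → Bool)) (u : Finset ι → ι → ℝ × ℝ) : Submodule ℝ (ι → ℝ) where
  carrier := {x | ∀ P, IsPen S P → ∃ w : ℝ × ℝ, ∀ i ∈ P, x i = (u P i).1 * w.1 + (u P i).2 * w.2}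
  zero_mem' := fun P _ => ⟨0, fun i _ => by simp⟩
  add_mem' := by
    intro x y hx hy P hP
    obtain ⟨w, hw⟩ := hx P hP
    obtain ⟨w', hw'⟩ := hy P hP
    refine ⟨w + w', fun i hi => ?_⟩
    simp only [Pi.add_apply, hw i hi, hw' i hi, Prod.fst_add, Prod.snd_add]
    ring
  smul_mem' := by
    intro c x hx P hP
    obtain ⟨w, hw⟩ := hx P hP
    refine ⟨c • w, fun i hi => ?_⟩
    simp only [Pi.smul_apply, smul_eq_mul, hw i hi, Prod.smul_fst, Prod.smul_snd]
    ring

lemma plane_aux {a b c p q : ℝ × ℝ} (h0 : a ≠ 0) (hp : a.1 * p.1 + a.2 * p.2 = 0)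
    (hq : a.1 * q.1 + a.2 * q.2 = 0) :
    (b.1 * p.1 + b.2 * p.2) * (c.1 * q.1 + c.2 * q.2) =
      (c.1 * p.1 + c.2 * p.2) * (b.1 * q.1 + b.2 * q.2) := by
  have hdet : p.1 * q.2 - p.2 * q.1 = 0 := by
    by_cases h1 : a.1 = 0
    · have h2 : a.2 ≠ 0 := by
        intro h2; apply h0; ext <;> simp [h1, h2]
      have : a.2 * (p.1 * q.2 - p.2 * q.1) = 0 := by
        rw [h1] at hp hq
        have e1 : a.2 * p.2 = 0 := by linarith
        have e2 : a.2 * q.2 = 0 := by linarith
        calc a.2 * (p.1 * q.2 - p.2 * q.1) = p.1 * (a.2 * q.2) - (a.2 * p.2) * q.1 := by ring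
          _ = 0 := by rw [e1, e2]; ring
      exact (mul_eq_zero.1 this).resolve_left h2
    · have : a.1 * (p.1 * q.2 - p.2 * q.1) = 0 := by
        calc a.1 * (p.1 * q.2 - p.2 * q.1) = q.2 * (a.1 * p.1 + a.2 * p.2) - p.2 * (a.1 * q.1 + a.2 * q.2) := by ring
          _ = 0 := by rw [hp, hq]; ring
      exact (mul_eq_zero.1 this).resolve_left h1
  have : (b.1 * p.1 + b.2 * p.2) * (c.1 * q.1 + c.2 * q.2) -
      (c.1 * p.1 + c.2 * p.2) * (b.1 * q.1 + b.2 * q.2) = (b.1 * c.2 - b.2 * c.1) * (p.1 * q.2 - p.2 * q.1) := by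
    ring
  rw [hdet, mul_zero] at this
  linarith

theorem main_space (hS : Isom S) (hQ : NoQ S) (hN : NC S) (hne : S.Nonempty) :
    ∃ W : Submodule ℝ (ι → ℝ),
      (∀ v ∈ S, ∃ x ∈ W, (∀ i, 0 < sg (v i) * x i) ∧ PairIneq S x) ∧
      (∀ x ∈ W, (∀ i, x i ≠ 0) → PairIneq S x → ∃ v ∈ S, ∀ i, 0 < sg (v i) * x i) := by
  classical
  have hu : ∀ P : Finset ι, ∃ u : ι → ℝ × ℝ, IsPen S P → ∀ v ∈ S, ∃ s t, Bnd S P u v s t := by
    intro P
    by_cases hP : IsPen S P
    · obtain ⟨u, h⟩ := exists_fan hS hQ P hP.clq (by have := hP.card; omega)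
      exact ⟨u, fun _ => h⟩
    · exact ⟨fun _ => 0, fun h => absurd h hP⟩
  choose u hu using hu
  have partA : ∀ v ∈ S, ∃ x ∈ WW S u, (∀ i, 0 < sg (v i) * x i) ∧ PairIneq S x := by
    intro v hv
    rcases isEmpty_or_nonempty ι with hι | hι
    · exact ⟨0, Submodule.zero_mem _, fun i => hι.elim i, fun i => hι.elim i⟩
    have hst : ∀ P : Finset ι, ∃ st : ι × ι, IsPen S P → Bnd S P (u P) v st.1 st.2 := by
      intro P
      by_cases hP : IsPen S P
      · obtain ⟨s, t, h⟩ := hu P hP v hv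
        exact ⟨(s, t), fun _ => h⟩
      · exact ⟨(Classical.arbitrary ι, Classical.arbitrary ι), fun h => absurd h hP⟩
    choose st hst using hst
    let s : Finset ι → ι := fun P => (st P).1
    let t : Finset ι → ι := fun P => (st P).2
    have hB : ∀ P, IsPen S P → Bnd S P (u P) v (s P) (t P) := hst
    obtain ⟨y, hy0, hyP, hyS⟩ := exists_y hS hQ hv hN u s t hB
    refine ⟨fun i => sg (v i) * y i, ?_, fun i => ?_, ?_⟩
    · intro P hP
      have hb := hB P hP
      set D := dt (u P (s P)) (u P (t P)) with hD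
      have hD0 : D ≠ 0 := hb.det
      have hDe : D = (u P (s P)).1 * (u P (t P)).2 - (u P (s P)).2 * (u P (t P)).1 := rfl
      set xs := sg (v (s P)) * y (s P) with hxs
      set xt := sg (v (t P)) * y (t P) with hxt
      refine ⟨((xs * (u P (t P)).2 - xt * (u P (s P)).2) / D, ((u P (s P)).1 * xt - (u P (t P)).1 * xs) / D), ?_⟩
      set w : ℝ × ℝ := ((xs * (u P (t P)).2 - xt * (u P (s P)).2) / D, ((u P (s P)).1 * xt - (u P (t P)).1 * xs) / D) with hw
      have e1 : (u P (s P)).1 * w.1 + (u P (s P)).2 * w.2 = xs := by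
        simp only [hw]
        field_simp
        rw [hDe]; ring
      have e2 : (u P (t P)).1 * w.1 + (u P (t P)).2 * w.2 = xt := by
        simp only [hw]
        field_simp
        rw [hDe]; ring
      intro i hi
      by_cases h1 : i = s P
      · rw [h1]; exact e1.symm
      by_cases h2 : i = t P
      · rw [h2]; exact e2.symm
      obtain ⟨α, β, _, _, h5, h6⟩ := hyP P hP i hi h1 h2
      have h51 := congrArg Prod.fst h5
      have h52 := congrArg Prod.snd h5
      simp only [Prod.smul_fst, Prod.smul_snd, Prod.fst_add, Prod.snd_add, smul_eq_mul] at h51 h52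
      have hsq := sg_sq (v i)
      have hsq1 := sg_sq (v (s P))
      have hsq2 := sg_sq (v (t P))
      have key : sg (v i) * ((u P i).1 * w.1 + (u P i).2 * w.2) = y i := by
        calc sg (v i) * ((u P i).1 * w.1 + (u P i).2 * w.2)
            = (sg (v i) * (u P i).1) * w.1 + (sg (v i) * (u P i).2) * w.2 := by ring
          _ = α * sg (v (s P)) * ((u P (s P)).1 * w.1 + (u P (s P)).2 * w.2) +
              β * sg (v (t P)) * ((u P (t P)).1 * w.1 + (u P (t P)).2 * w.2) := by rw [h51, h52]; ring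
          _ = α * (sg (v (s P)) * sg (v (s P))) * y (s P) + β * (sg (v (t P)) * sg (v (t P))) * y (t P) := by
              rw [e1, e2, hxs, hxt]; ring
          _ = y i := by rw [hsq1, hsq2, h6]; ring
      calc sg (v i) * y i = sg (v i) * (sg (v i) * ((u P i).1 * w.1 + (u P i).2 * w.2)) := by rw [key]
        _ = (sg (v i) * sg (v i)) * ((u P i).1 * w.1 + (u P i).2 * w.2) := by ring
        _ = _ := by rw [hsq, one_mul]
    · have hsq := sg_sq (v i)
      calc 0 < y i := hy0 i
        _ = sg (v i) * (sg (v i) * y i) := by rw [← mul_assoc, hsq, one_mul]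
    · intro i j hij a b hm
      have pi := hy0 i
      have pj := hy0 j
      have key : ∀ b : Bool, ∀ r : ℝ, sg b * (sg b * r) = r := fun b r => by rw [← mul_assoc, sg_sq, one_mul]
      have key' : ∀ b : Bool, ∀ r : ℝ, sg b * (sg (!b) * r) = -r := fun b r => by
        rw [sg_not, neg_mul, mul_neg, key]
      rcases Bool.eq_or_eq_not (v i) a with h1 | h1 <;> rcases Bool.eq_or_eq_not (v j) b with h2 | h2
      · exact absurd ⟨v, hv, h1, h2⟩ hm
      · have hsub : Sub S v i j := ⟨hij, by rw [h1, h2, Bool.not_not]; exact hm⟩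
        have := hyS i j hsub
        simp only [h1, h2, key, key']
        linarith
      · have hsub : Sub S v j i := ⟨hij.symm, by
          rw [h1, h2, Bool.not_not]; exact fun ⟨z, hz, p, q⟩ => hm ⟨z, hz, q, p⟩⟩
        have := hyS j i hsub
        simp only [h1, h2, key, key']
        linarith
      · simp only [h1, h2, key']
        linarith
  refine ⟨WW S u, partA, ?_⟩
  intro x hx hx0 hxP
  -- sign pattern
  let ε : ι → Bool := fun i => decide (0 < x i)
  have hε : ∀ i, 0 < sg (ε i) * x i := by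
    intro i
    by_cases h : 0 < x i
    · simp only [ε, h, decide_true, sg, if_true, one_mul]
    · have h' : x i < 0 := lt_of_le_of_ne (not_lt.1 h) (hx0 i)
      simp only [ε, h, decide_false, sg]
      simp; exact h'
  have pr : ∀ i j, i ≠ j → P2 S i j (ε i) (ε j) := by
    intro i j hij
    by_contra hm
    have := hxP i j hij _ _ hm
    have h1 := hε i
    have h2 := hε j
    linarith
  obtain ⟨v, hv, hvε⟩ := determined hS hQ ε _ Finset.univ rfl (by
    intro T _ hT
    have hT' : T.card = 0 ∨ T.card = 1 ∨ T.card = 2 ∨ T.card = 3 := by omega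
    rcases hT' with h | h | h | h
    · rw [Finset.card_eq_zero] at h
      obtain ⟨z, hz⟩ := hne
      exact ⟨z, hz, fun m hm => by simp [h] at hm⟩
    · obtain ⟨i, rfl⟩ := Finset.card_eq_one.1 h
      obtain ⟨z, hz, hzi⟩ := hN i (ε i)
      exact ⟨z, hz, fun m hm => by rw [Finset.mem_singleton] at hm; rw [hm, hzi]⟩
    · obtain ⟨i, j, hij, rfl⟩ := Finset.card_eq_two.1 h
      obtain ⟨z, hz, hzi, hzj⟩ := pr i j hij
      refine ⟨z, hz, fun m hm => ?_⟩
      simp only [Finset.mem_insert, Finset.mem_singleton] at hm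
      rcases hm with rfl | rfl <;> assumption
    · obtain ⟨i, j, k, nij, nik, njk, rfl⟩ := Finset.card_eq_three.1 h
      suffices h3 : P3 S i j k (ε i) (ε j) (ε k) by
        obtain ⟨z, hz, h1, h2, h3⟩ := h3
        refine ⟨z, hz, fun m hm => ?_⟩
        simp only [Finset.mem_insert, Finset.mem_singleton] at hm
        rcases hm with rfl | rfl | rfl <;> assumption
      by_contra hm
      have A1 : P3 S i j k (!ε i) (ε j) (ε k) := by
        obtain ⟨z, hz, h1, h2⟩ := pr j k njk
        exact ⟨z, hz, bne_ (fun h => hm ⟨z, hz, h, h1, h2⟩), h1, h2⟩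
      have A2 : P3 S i j k (ε i) (!ε j) (ε k) := by
        obtain ⟨z, hz, h1, h2⟩ := pr i k nik
        exact ⟨z, hz, h1, bne_ (fun h => hm ⟨z, hz, h1, h, h2⟩), h2⟩
      have A3 : P3 S i j k (ε i) (ε j) (!ε k) := by
        obtain ⟨z, hz, h1, h2⟩ := pr i j nij
        exact ⟨z, hz, h1, h2, bne_ (fun h => hm ⟨z, hz, h1, h2, h⟩)⟩
      have B1 : P3 S i j k (!ε i) (!ε j) (ε k) := by
        obtain ⟨x, hx, h1, h2, h3⟩ := A1
        obtain ⟨y, hy, h4, h5, h6⟩ := A2
        obtain ⟨z, hz, h7, h8⟩ := between hS {i, j, k} hx hy (i := i) (j := j) (by simp) nij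
          (by rw [h1, h4]; simp) (by rw [h2, h5]; simp)
          (by intro m hmT h h'; simp only [Finset.mem_insert, Finset.mem_singleton] at hmT
              rcases hmT with rfl | rfl | rfl
              · exact absurd rfl h
              · exact absurd rfl h'
              · rw [h3, h6])
        have hzk : z k = ε k := by rw [h7 k (by simp) nik.symm njk.symm, h3]
        rcases h8 with ⟨h9, h10⟩ | ⟨_, h9, h10⟩
        · exact absurd ⟨z, hz, by rw [h9, h4], by rw [h10 (by simp), h2], hzk⟩ hm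
        · exact ⟨z, hz, by rw [h9, h1], by rw [h10, h5], hzk⟩
      have B2 : P3 S i j k (!ε i) (ε j) (!ε k) := by
        obtain ⟨x, hx, h1, h2, h3⟩ := A1
        obtain ⟨y, hy, h4, h5, h6⟩ := A3
        obtain ⟨z, hz, h7, h8⟩ := between hS {i, j, k} hx hy (i := i) (j := k) (by simp) nik
          (by rw [h1, h4]; simp) (by rw [h3, h6]; simp)
          (by intro m hmT h h'; simp only [Finset.mem_insert, Finset.mem_singleton] at hmT
              rcases hmT with rfl | rfl | rfl
              · exact absurd rfl h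
              · rw [h2, h5]
              · exact absurd rfl h')
        have hzk : z j = ε j := by rw [h7 j (by simp) nij.symm njk, h2]
        rcases h8 with ⟨h9, h10⟩ | ⟨_, h9, h10⟩
        · exact absurd ⟨z, hz, by rw [h9, h4], hzk, by rw [h10 (by simp), h3]⟩ hm
        · exact ⟨z, hz, by rw [h9, h1], hzk, by rw [h10, h6]⟩
      have B3 : P3 S i j k (ε i) (!ε j) (!ε k) := by
        obtain ⟨x, hx, h1, h2, h3⟩ := A2
        obtain ⟨y, hy, h4, h5, h6⟩ := A3
        obtain ⟨z, hz, h7, h8⟩ := between hS {i, j, k} hx hy (i := j) (j := k) (by simp) njk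
          (by rw [h2, h5]; simp) (by rw [h3, h6]; simp)
          (by intro m hmT h h'; simp only [Finset.mem_insert, Finset.mem_singleton] at hmT
              rcases hmT with rfl | rfl | rfl
              · rw [h1, h4]
              · exact absurd rfl h
              · exact absurd rfl h')
        have hzk : z i = ε i := by rw [h7 i (by simp) nij nik, h1]
        rcases h8 with ⟨h9, h10⟩ | ⟨_, h9, h10⟩
        · exact absurd ⟨z, hz, hzk, by rw [h9, h5], by rw [h10 (by simp), h3]⟩ hm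
        · exact ⟨z, hz, hzk, by rw [h9, h2], by rw [h10, h6]⟩
      have c1 : Cross S i j := by
        obtain ⟨y1, m1, p1, q1, _⟩ := A3
        obtain ⟨y2, m2, p2, q2, _⟩ := B3
        obtain ⟨y3, m3, p3, q3, _⟩ := A1
        obtain ⟨y4, m4, p4, q4, _⟩ := B1
        exact cross_of hS hQ ⟨y1, m1, p1, q1⟩ ⟨y2, m2, p2, q2⟩ ⟨y3, m3, p3, q3⟩ ⟨y4, m4, p4, q4⟩
      have c2 : Cross S i k := by
        obtain ⟨y1, m1, p1, _, q1⟩ := A2
        obtain ⟨y2, m2, p2, _, q2⟩ := A3
        obtain ⟨y3, m3, p3, _, q3⟩ := A1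
        obtain ⟨y4, m4, p4, _, q4⟩ := B2
        exact cross_of hS hQ ⟨y1, m1, p1, q1⟩ ⟨y2, m2, p2, q2⟩ ⟨y3, m3, p3, q3⟩ ⟨y4, m4, p4, q4⟩
      have c3 : Cross S j k := by
        obtain ⟨y1, m1, _, p1, q1⟩ := A1
        obtain ⟨y2, m2, _, p2, q2⟩ := A3
        obtain ⟨y3, m3, _, p3, q3⟩ := A2
        obtain ⟨y4, m4, _, p4, q4⟩ := B3
        exact cross_of hS hQ ⟨y1, m1, p1, q1⟩ ⟨y2, m2, p2, q2⟩ ⟨y3, m3, p3, q3⟩ ⟨y4, m4, p4, q4⟩
      have h6 : C6 S i j k := ⟨c1, c2, c3, ⟨_, _, _, hm⟩⟩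
      obtain ⟨P, hP, hi, hj, hk⟩ := pen_exists hS hQ h6
      -- points of the plane
      have pt : ∀ z ∈ S, ∃ w : ℝ × ℝ, ∀ m ∈ P, 0 < sg (z m) * ((u P m).1 * w.1 + (u P m).2 * w.2) := by
        intro z hz
        obtain ⟨X, hX, hX1, _⟩ := partA z hz
        obtain ⟨w, hw⟩ := hX P hP
        exact ⟨w, fun m hm => by rw [← hw m hm]; exact hX1 m⟩
      obtain ⟨w, hw⟩ := hx P hP
      have li := hε i
      have lj := hε j
      have lk := hε k
      rw [hw i hi] at li
      rw [hw j hj] at lj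
      rw [hw k hk] at lk
      obtain ⟨z1, hz1, p1, q1, r1⟩ := A1
      obtain ⟨w1, hw1⟩ := pt z1 hz1
      have l1i := hw1 i hi
      have l1j := hw1 j hj
      have l1k := hw1 k hk
      rw [p1, sg_not] at l1i
      rw [q1] at l1j
      rw [r1] at l1k
      obtain ⟨z2, hz2, p2, q2, r2⟩ := A2
      obtain ⟨w2, hw2⟩ := pt z2 hz2
      have l2i := hw2 i hi
      have l2j := hw2 j hj
      have l2k := hw2 k hk
      rw [p2] at l2i
      rw [q2, sg_not] at l2j
      rw [r2] at l2k
      obtain ⟨z3, hz3, p3, q3, r3⟩ := B1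
      obtain ⟨w3, hw3⟩ := pt z3 hz3
      have l3i := hw3 i hi
      have l3j := hw3 j hj
      have l3k := hw3 k hk
      rw [p3, sg_not] at l3i
      rw [q3, sg_not] at l3j
      rw [r3] at l3k
      generalize sg (ε i) = ei at *
      generalize sg (ε j) = ej at *
      generalize sg (ε k) = ek at *
      generalize u P i = ui at *
      generalize u P j = uj at *
      generalize u P k = uk at *
      have hui : ui ≠ 0 := by
        rintro rfl
        simp at li
      -- abbreviations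
      set a0 := ei * (ui.1 * w.1 + ui.2 * w.2) with ha0
      set a1 := ei * (ui.1 * w1.1 + ui.2 * w1.2) with ha1
      set a2 := ei * (ui.1 * w2.1 + ui.2 * w2.2) with ha2
      set a3 := ei * (ui.1 * w3.1 + ui.2 * w3.2) with ha3
      have hei : ei ≠ 0 := by
        rintro rfl
        simp [ha0] at li
      have n1 : a1 < 0 := by rw [ha1]; linarith
      have n3 : a3 < 0 := by rw [ha3]; linarith
      let p : ℝ × ℝ := (-a1 * w.1 + a0 * w1.1, -a1 * w.2 + a0 * w1.2)
      let q : ℝ × ℝ := (-a3 * w2.1 + a2 * w3.1, -a3 * w2.2 + a2 * w3.2)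
      have hp : ui.1 * p.1 + ui.2 * p.2 = 0 := by
        have : ei * (ui.1 * p.1 + ui.2 * p.2) = 0 := by
          simp only [p]
          calc ei * (ui.1 * (-a1 * w.1 + a0 * w1.1) + ui.2 * (-a1 * w.2 + a0 * w1.2))
              = -a1 * (ei * (ui.1 * w.1 + ui.2 * w.2)) + a0 * (ei * (ui.1 * w1.1 + ui.2 * w1.2)) := by ring
            _ = 0 := by rw [← ha0, ← ha1]; ring
        exact (mul_eq_zero.1 this).resolve_left hei
      have hq : ui.1 * q.1 + ui.2 * q.2 = 0 := by
        have : ei * (ui.1 * q.1 + ui.2 * q.2) = 0 := by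
          simp only [q]
          calc ei * (ui.1 * (-a3 * w2.1 + a2 * w3.1) + ui.2 * (-a3 * w2.2 + a2 * w3.2))
              = -a3 * (ei * (ui.1 * w2.1 + ui.2 * w2.2)) + a2 * (ei * (ui.1 * w3.1 + ui.2 * w3.2)) := by ring
            _ = 0 := by rw [← ha2, ← ha3]; ring
        exact (mul_eq_zero.1 this).resolve_left hei
      have hpl := plane_aux (b := uj) (c := uk) hui hp hq
      have s1 : 0 < ej * (uj.1 * p.1 + uj.2 * p.2) := by
        simp only [p]
        have e : ej * (uj.1 * (-a1 * w.1 + a0 * w1.1) + uj.2 * (-a1 * w.2 + a0 * w1.2)) =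
          (-a1) * (ej * (uj.1 * w.1 + uj.2 * w.2)) + a0 * (ej * (uj.1 * w1.1 + uj.2 * w1.2)) := by ring
        rw [e]
        have := mul_pos (neg_pos.2 n1) lj
        have := mul_pos li l1j
        linarith
      have s2 : 0 < ek * (uk.1 * p.1 + uk.2 * p.2) := by
        simp only [p]
        have e : ek * (uk.1 * (-a1 * w.1 + a0 * w1.1) + uk.2 * (-a1 * w.2 + a0 * w1.2)) =
          (-a1) * (ek * (uk.1 * w.1 + uk.2 * w.2)) + a0 * (ek * (uk.1 * w1.1 + uk.2 * w1.2)) := by ring
        rw [e]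
        have := mul_pos (neg_pos.2 n1) lk
        have := mul_pos li l1k
        linarith
      have s3 : 0 < -ej * (uj.1 * q.1 + uj.2 * q.2) := by
        simp only [q]
        have e : -ej * (uj.1 * (-a3 * w2.1 + a2 * w3.1) + uj.2 * (-a3 * w2.2 + a2 * w3.2)) =
          (-a3) * (-ej * (uj.1 * w2.1 + uj.2 * w2.2)) + a2 * (-ej * (uj.1 * w3.1 + uj.2 * w3.2)) := by ring
        rw [e]
        have := mul_pos (neg_pos.2 n3) l2j
        have := mul_pos l2i l3j
        linarith
      have s4 : 0 < ek * (uk.1 * q.1 + uk.2 * q.2) := by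
        simp only [q]
        have e : ek * (uk.1 * (-a3 * w2.1 + a2 * w3.1) + uk.2 * (-a3 * w2.2 + a2 * w3.2)) =
          (-a3) * (ek * (uk.1 * w2.1 + uk.2 * w2.2)) + a2 * (ek * (uk.1 * w3.1 + uk.2 * w3.2)) := by ring
        rw [e]
        have := mul_pos (neg_pos.2 n3) l2k
        have := mul_pos l2i l3k
        linarith
      have f1 := mul_pos s1 s4
      have f2 := mul_pos s2 s3
      have f3 : ej * (uj.1 * p.1 + uj.2 * p.2) * (ek * (uk.1 * q.1 + uk.2 * q.2)) +
          ek * (uk.1 * p.1 + uk.2 * p.2) * (-ej * (uj.1 * q.1 + uj.2 * q.2)) =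
          ej * ek * ((uj.1 * p.1 + uj.2 * p.2) * (uk.1 * q.1 + uk.2 * q.2) -
            (uk.1 * p.1 + uk.2 * p.2) * (uj.1 * q.1 + uj.2 * q.2)) := by ring
      rw [hpl, sub_self, mul_zero] at f3
      linarith)
  refine ⟨v, hv, fun i => ?_⟩
  rw [hvε i (Finset.mem_univ i)]
  exact hε i

end N431.Hyp
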