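import Pool.Agent.N431.Hyp.Minor
import Pool.Agent.N431.Hyp.Arr
import Pool.Agent.N431.Hyp.Space

namespace N431.Hyp

set_option linter.unusedSectionVars false

lemma sg_mul_iff {a b : Bool} {x y : ℝ} (hx : 0 < sg a * x) (hy : 0 < sg b * y) : x * y < 0 ↔ a ≠ b := by
  cases a <;> cases b <;> simp [sg] at hx hy ⊢ <;> nlinarith

/-- the realisation theorem for isometric subsets of a cube -/
theorem tope_main {ι : Type*} [DecidableEq ι] [Fintype ι] {S : Set (ι → Bool)}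
    (hS : Isom S) (hQ : NoQ S) (hN : NC S) (hne : S.Nonempty) :
    ∃ (d : ℕ) (A : Finset (Submodule ℝ (Fin d → ℝ))), (∀ H ∈ A, IsHyperplane H) ∧
      ∃ C : Set {R : Set (Fin d → ℝ) // IsRegion A R}, IsConvex (topeGraph A) C ∧
        Nonempty (HG S ≃g (topeGraph A).induce C) := by
  classical
  obtain ⟨W, hW1, hW2⟩ := main_space hS hQ hN hne
  let d := Module.finrank ℝ W
  let L : (Fin d → ℝ) ≃ₗ[ℝ] W := (Module.finBasis ℝ W).equivFun.symm
  let F : ι → (Fin d → ℝ) →ₗ[ℝ] ℝ := fun i => (LinearMap.proj i) ∘ₗ W.subtype ∘ₗ L.toLinearMap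
  have hF : ∀ i z, F i z = (L z).1 i := fun i z => rfl
  let Gf : ι × ι × Bool × Bool → (Fin d → ℝ) →ₗ[ℝ] ℝ := fun q => sg q.2.2.1 • F q.1 + sg q.2.2.2 • F q.2.1
  have hG : ∀ q z, Gf q z = sg q.2.2.1 * F q.1 z + sg q.2.2.2 * F q.2.1 z := fun q z => rfl
  let ms : Finset (ι × ι × Bool × Bool) :=
    Finset.univ.filter (fun q => q.1 ≠ q.2.1 ∧ ¬ P2 S q.1 q.2.1 q.2.2.1 q.2.2.2)
  have hms : ∀ q, q ∈ ms ↔ (q.1 ≠ q.2.1 ∧ ¬ P2 S q.1 q.2.1 q.2.2.1 q.2.2.2) := fun q => by simp [ms]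
  -- points
  have hp : ∀ v : S, ∃ p : Fin d → ℝ, (∀ i, 0 < sg (v.1 i) * F i p) ∧ ∀ q ∈ ms, Gf q p < 0 := by
    intro v
    obtain ⟨x, hx, h1, h2⟩ := hW1 v.1 v.2
    refine ⟨L.symm ⟨x, hx⟩, fun i => ?_, fun q hq => ?_⟩
    · rw [hF, LinearEquiv.apply_symm_apply]; exact h1 i
    · rw [hG, hF, hF, LinearEquiv.apply_symm_apply]
      exact h2 _ _ ((hms q).1 hq).1 _ _ ((hms q).1 hq).2
  choose p hp1 hp2 using hp
  let A : Finset (Submodule ℝ (Fin d → ℝ)) :=
    (Finset.univ.image fun i => LinearMap.ker (F i)) ∪ (ms.image fun q => LinearMap.ker (Gf q))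
  have hAm : ∀ H, H ∈ A ↔ (∃ i, LinearMap.ker (F i) = H) ∨ (∃ q ∈ ms, LinearMap.ker (Gf q) = H) := by
    intro H; simp [A]
  obtain ⟨v0, hv0⟩ := hne
  let v0 : S := ⟨v0, hv0⟩
  have hA : ∀ H ∈ A, IsHyperplane H := by
    intro H hH
    rcases (hAm H).1 hH with ⟨i, rfl⟩ | ⟨q, hq, rfl⟩
    · refine ⟨F i, fun h => ?_, rfl⟩
      have := hp1 v0 i
      rw [h] at this; simp at this
    · refine ⟨Gf q, fun h => ?_, rfl⟩
      have := hp2 v0 q hq
      rw [h] at this; simp at this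
  refine ⟨d, A, hA, ?_⟩
  have hfn : ∀ H : A, ∃ f : (Fin d → ℝ) →ₗ[ℝ] ℝ, LinearMap.ker f = H.1 := by
    intro H
    obtain ⟨f, _, h⟩ := hA H.1 H.2
    exact ⟨f, h⟩
  choose fn hfn using hfn
  have hpc : ∀ v : S, p v ∈ arrCompl A := by
    intro v H hH hpH
    rcases (hAm H).1 hH with ⟨i, rfl⟩ | ⟨q, hq, rfl⟩
    · have := hp1 v i
      rw [LinearMap.mem_ker.1 hpH] at this; simp at this
    · have := hp2 v q hq
      rw [LinearMap.mem_ker.1 hpH] at this; simp at this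
  let R : S → {R : Set (Fin d → ℝ) // IsRegion A R} := fun v =>
    ⟨connectedComponentIn (arrCompl A) (p v), p v, hpc v, rfl⟩
  have hpR : ∀ v, p v ∈ (R v).1 := fun v => mem_connectedComponentIn (hpc v)
  let hi : ∀ i, LinearMap.ker (F i) ∈ A := fun i => (hAm _).2 (Or.inl ⟨i, rfl⟩)
  let hq' : ∀ q ∈ ms, LinearMap.ker (Gf q) ∈ A := fun q hq => (hAm _).2 (Or.inr ⟨q, hq, rfl⟩)
  -- signs
  have sF : ∀ v v' i, sv fn (R v) ⟨_, hi i⟩ ≠ sv fn (R v') ⟨_, hi i⟩ ↔ v.1 i ≠ v'.1 i := by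
    intro v v' i
    rw [sv_ne_iff fn hfn (hpR v) (hpR v') ⟨_, hi i⟩ (f := F i) rfl]
    exact sg_mul_iff (hp1 v i) (hp1 v' i)
  have sG : ∀ v v' q (hq : q ∈ ms), sv fn (R v) ⟨_, hq' q hq⟩ = sv fn (R v') ⟨_, hq' q hq⟩ := by
    intro v v' q hq
    by_contra hne
    rw [← ne_eq, sv_ne_iff fn hfn (hpR v) (hpR v') ⟨_, hq' q hq⟩ (f := Gf q) rfl] at hne
    have h1 := hp2 v q hq
    have h2 := hp2 v' q hq
    nlinarith
  -- distinct hyperplanes
  have kinj : ∀ i j, LinearMap.ker (F i) = LinearMap.ker (F j) → i = j := by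
    intro i j hij
    by_contra hne
    have hFj : F j ≠ 0 := by
      intro h
      have := hp1 v0 j
      rw [h] at this; simp at this
    obtain ⟨c, hc, hFc⟩ := prop_of_ker hFj hij
    obtain ⟨x, hx, hx1⟩ := hN i true
    obtain ⟨y, hy, hy1⟩ := hN i false
    obtain ⟨z, hz, k, hk, h1, h2, h3⟩ := proj_isom hS {i, j} _ x y hx hy rfl ⟨i, by simp, by rw [hx1, hy1]; decide⟩
    have hcc : 0 < c * c := mul_self_pos.2 hc
    have e : F i (p ⟨x, hx⟩) * F i (p ⟨z, hz⟩) = c * c * (F j (p ⟨x, hx⟩) * F j (p ⟨z, hz⟩)) := by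
      rw [hFc]; simp only [LinearMap.smul_apply, smul_eq_mul]; ring
    have ki := sg_mul_iff (hp1 ⟨x, hx⟩ i) (hp1 ⟨z, hz⟩ i)
    have kj := sg_mul_iff (hp1 ⟨x, hx⟩ j) (hp1 ⟨z, hz⟩ j)
    simp only at ki kj
    have hxz : x i ≠ z i ↔ x j ≠ z j := by
      rw [← ki, ← kj, e]
      constructor
      · intro h; by_contra h'; push Not at h'
        have := mul_nonneg hcc.le h'
        linarith
      · intro h; exact mul_neg_of_pos_of_neg hcc h
    simp only [Finset.mem_insert, Finset.mem_singleton] at hk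
    rcases hk with rfl | rfl
    · have h4 := h3 j (by simp) (Ne.symm hne)
      exact hxz.1 (by rw [h2]; exact h1) h4.symm
    · have h4 := h3 i (by simp) hne
      exact hxz.2 (by rw [h2]; exact h1) h4.symm
  -- hamming distances
  have hhd : ∀ v v' : S, hammingDist (sv fn (R v)) (sv fn (R v')) = hammingDist v.1 v'.1 := by
    intro v v'
    unfold hammingDist
    have himg : (Finset.univ.filter fun H => sv fn (R v) H ≠ sv fn (R v') H) =
        (Finset.univ.filter fun i => v.1 i ≠ v'.1 i).image (fun i => (⟨_, hi i⟩ : A)) := by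
      ext H
      simp only [Finset.mem_filter, Finset.mem_univ, true_and, Finset.mem_image]
      constructor
      · intro h
        rcases (hAm H.1).1 H.2 with ⟨i, h1⟩ | ⟨q, hq, h1⟩
        · have e : H = ⟨_, hi i⟩ := Subtype.ext h1.symm
          refine ⟨i, ?_, e.symm⟩
          rw [e] at h
          exact (sF v v' i).1 h
        · have e : H = ⟨_, hq' q hq⟩ := Subtype.ext h1.symm
          rw [e] at h
          exact absurd (sG v v' q hq) h
      · rintro ⟨i, h1, rfl⟩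
        exact (sF v v' i).2 h1
    rw [himg, Finset.card_image_of_injective]
    intro i j hij
    exact kinj i j (congrArg Subtype.val hij)
  -- the convex set
  let K : A → Prop := fun H => ∃ q ∈ ms, LinearMap.ker (Gf q) = H.1
  let C : Set {R : Set (Fin d → ℝ) // IsRegion A R} := {Q | ∀ H : A, K H → sv fn Q H = sv fn (R v0) H}
  have hRC : ∀ v, R v ∈ C := by
    rintro v H ⟨q, hq, h1⟩
    have e : H = ⟨_, hq' q hq⟩ := Subtype.ext h1.symm
    rw [e]
    exact sG v v0 q hq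
  have hCR : ∀ Q ∈ C, ∃ v, Q = R v := by
    intro Q hQC
    have hxc := pt_mem Q
    have hxQ := pt_mem' Q
    set x := pt Q with hxdef
    have hneg : ∀ q ∈ ms, Gf q x < 0 := by
      intro q hq
      have h1 : sv fn Q ⟨_, hq' q hq⟩ = sv fn (R v0) ⟨_, hq' q hq⟩ := hQC _ ⟨q, hq, rfl⟩
      have h2 : ¬ (Gf q x * Gf q (p v0) < 0) := by
        intro h
        exact (sv_ne_iff fn hfn hxQ (hpR v0) ⟨_, hq' q hq⟩ (f := Gf q) rfl).2 h h1
      have h3 := hp2 v0 q hq
      have h4 : Gf q x ≠ 0 := fun h => hxc _ (hq' q hq) h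
      by_contra h5
      push Not at h5
      exact h2 (mul_neg_of_pos_of_neg (lt_of_le_of_ne h5 (Ne.symm h4)) h3)
    obtain ⟨v, hv, hvx⟩ := hW2 (L x).1 (L x).2 (fun i h => hxc _ (hi i) h) (by
      intro i j hij a b hm
      exact hneg (i, j, a, b) ((hms _).2 ⟨hij, hm⟩))
    refine ⟨⟨v, hv⟩, sv_inj fn hfn ?_⟩
    funext H
    rcases (hAm H.1).1 H.2 with ⟨i, h1⟩ | ⟨q, hq, h1⟩
    · have e : H = ⟨_, hi i⟩ := Subtype.ext h1.symm
      rw [e]
      by_contra hne
      rw [← ne_eq, sv_ne_iff fn hfn hxQ (hpR ⟨v, hv⟩) ⟨_, hi i⟩ (f := F i) rfl] at hne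
      have hvx' : 0 < sg (v i) * F i x := hvx i
      exact (sg_mul_iff hvx' (hp1 ⟨v, hv⟩ i)).1 hne rfl
    · have e : H = ⟨_, hq' q hq⟩ := Subtype.ext h1.symm
      rw [e, hQC _ ⟨q, hq, rfl⟩]
      exact sG _ _ q hq
  have hadj : ∀ v v', (topeGraph A).Adj (R v) (R v') ↔ (HG S).Adj v v' := by
    intro v v'
    rw [tope_adj_iff fn hfn, hhd]
    exact Iff.rfl
  refine ⟨C, ?_, ?_⟩
  · apply face_convex (sv fn) (fun Q Q' h => le_of_eq ((tope_adj_iff fn hfn Q Q').1 h)) C _ K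
    · intro Q hQC Q' hQC' H hH
      rw [hQC H hH, hQC' H hH]
    · intro Q hQC Q' hw H hH
      rw [hw H hH, hQC H hH]
    · intro Q hQC Q' hQC'
      obtain ⟨v, rfl⟩ := hCR Q hQC
      obtain ⟨v', rfl⟩ := hCR Q' hQC'
      obtain ⟨w, hw⟩ := exists_walk hS _ v v' rfl
      let hom : HG S →g topeGraph A := ⟨R, fun {a b} h => (hadj a b).2 h⟩
      have hle : (topeGraph A).dist (R v) (R v') ≤ hammingDist v.1 v'.1 := by
        have := SimpleGraph.dist_le (w.map hom)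
        rwa [SimpleGraph.Walk.length_map, hw] at this
      apply le_antisymm
      · rw [hhd]; exact hle
      · obtain ⟨w', hw'⟩ := (SimpleGraph.Walk.reachable (w.map hom)).exists_walk_length_eq_dist
        rw [show (topeGraph A).dist (R v) (R v') = w'.length from hw'.symm]
        exact walk_len (sv fn) (fun Q Q' h => le_of_eq ((tope_adj_iff fn hfn Q Q').1 h)) w'
  · let Φ : S → C := fun v => ⟨R v, hRC v⟩
    have hbij : Function.Bijective Φ := by
      constructor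
      · intro v v' h
        have h' : R v = R v' := congrArg Subtype.val h
        apply Subtype.ext
        funext i
        by_contra hne
        exact (sF v v' i).2 hne (by rw [h'])
      · rintro ⟨Q, hQC⟩
        obtain ⟨v, rfl⟩ := hCR Q hQC
        exact ⟨v, rfl⟩
    exact ⟨⟨Equiv.ofBijective Φ hbij, fun {v v'} => hadj v v'⟩⟩

/-- hypercellular graphs are convex subgraphs of tope graphs -/
theorem hyper_main {V : Type} (G : SimpleGraph V) (hG : Hypercellular G) :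
    ∃ (d : ℕ) (A : Finset (Submodule ℝ (Fin d → ℝ))), (∀ H ∈ A, IsHyperplane H) ∧
      ∃ C : Set {R : Set (Fin d → ℝ) // IsRegion A R}, IsConvex (topeGraph A) C ∧
        Nonempty (G ≃g (topeGraph A).induce C) := by
  classical
  obtain ⟨⟨hconn, n, φ, hφ⟩, hno⟩ := hG
  let ι : Type := {i : Fin n // ∃ u v, φ u i ≠ φ v i}
  let ψ : V → ι → Bool := fun v i => φ v i.1
  have hψ : ∀ u v, G.dist u v = hammingDist (ψ u) (ψ v) := by
    intro u v
    rw [hφ]
    unfold hammingDist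
    have : (Finset.univ.filter fun i => φ u i ≠ φ v i) =
        (Finset.univ.filter fun i : ι => ψ u i ≠ ψ v i).image Subtype.val := by
      ext i
      simp only [Finset.mem_filter, Finset.mem_univ, true_and, Finset.mem_image]
      constructor
      · intro h
        exact ⟨⟨i, u, v, h⟩, h, rfl⟩
      · rintro ⟨i, h, rfl⟩
        exact h
    rw [this, Finset.card_image_of_injective _ Subtype.val_injective]
  have hS := isom_range hconn ψ hψ
  obtain ⟨iso⟩ := iso_range hconn ψ hψ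
  have hmin : PCMinor G (Set.range ψ) (HG (Set.range ψ)) := PCMinor.iso PCMinor.refl ⟨iso⟩
  have hQ := noQ_of hS hmin hno
  have hN : NC (Set.range ψ) := by
    rintro ⟨i, u, v, huv⟩ b
    by_cases h : φ u i = b
    · exact ⟨ψ u, ⟨u, rfl⟩, h⟩
    · refine ⟨ψ v, ⟨v, rfl⟩, ?_⟩
      change φ v i = b
      cases h1 : φ u i <;> cases h2 : φ v i <;> cases b <;> simp_all
  have hne : (Set.range ψ).Nonempty := by
    obtain ⟨v⟩ := hconn.nonempty
    exact ⟨ψ v, v, rfl⟩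
  obtain ⟨d, A, h1, C, h2, ⟨iso2⟩⟩ := tope_main hS hQ hN hne
  exact ⟨d, A, h1, C, h2, ⟨iso.trans iso2⟩⟩

end N431.Hyp
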