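import Pool.Agent.N431.Hyp.Core

namespace N431.Hyp

variable {ι : Type*} [DecidableEq ι] [Fintype ι]

set_option linter.unusedSectionVars false

/-- a sign pattern all of whose restrictions to at most three coordinates are present is present -/
theorem determined {S : Set (ι → Bool)} (hS : Isom S) (hQ : NoQ S) (e : ι → Bool) :
    ∀ (n : ℕ) (T : Finset ι), T.card = n →
      (∀ T' ⊆ T, T'.card ≤ 3 → ∃ x ∈ S, ∀ m ∈ T', x m = e m) → ∃ x ∈ S, ∀ m ∈ T, x m = e m := by
  intro n
  induction n using Nat.strong_induction_on with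
  | _ n ih =>
    intro T hT h3
    by_cases hn : n ≤ 3
    · exact h3 T (Finset.Subset.refl _) (hT ▸ hn)
    by_contra hno
    push Not at hno
    have single : ∀ i ∈ T, ∃ x ∈ S, x i = !e i ∧ ∀ m ∈ T, m ≠ i → x m = e m := by
      intro i hi
      obtain ⟨x, hx, h⟩ := ih (T.erase i).card (by rw [← hT]; exact Finset.card_erase_lt_of_mem hi)
        (T.erase i) rfl (fun T' hT' hc => h3 T' (hT'.trans (Finset.erase_subset _ _)) hc)
      have h' : ∀ m ∈ T, m ≠ i → x m = e m := fun m hm hmi => h m (Finset.mem_erase.2 ⟨hmi, hm⟩)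
      refine ⟨x, hx, ?_, h'⟩
      by_contra hc
      obtain ⟨m, hm, hne⟩ := hno x hx
      by_cases hmi : m = i
      · subst hmi
        apply hne
        cases h1 : x m <;> cases h2 : e m <;> simp_all
      · exact hne (h' m hm hmi)
    have pair : ∀ i ∈ T, ∀ j ∈ T, i ≠ j → ∃ x ∈ S, x i = !e i ∧ x j = !e j ∧
        ∀ m ∈ T, m ≠ i → m ≠ j → x m = e m := by
      intro i hi j hj hij
      obtain ⟨x, hx, hx1, hx2⟩ := single i hi
      obtain ⟨y, hy, hy1, hy2⟩ := single j hj
      obtain ⟨z, hz, hz1, hz2⟩ := between hS T hx hy hi hij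
        (by rw [hx1, hy2 i hi hij]; cases e i <;> simp) (by rw [hx2 j hj hij.symm, hy1]; cases e j <;> simp)
        (fun m hm hmi hmj => by rw [hx2 m hm hmi, hy2 m hm hmj])
      rcases hz2 with ⟨h1, h2⟩ | ⟨_, h1, h2⟩
      · exfalso
        obtain ⟨m, hm, hne⟩ := hno z hz
        apply hne
        by_cases hmi : m = i
        · subst hmi; rw [h1, hy2 m hm hij]
        · by_cases hmj : m = j
          · subst hmj; rw [h2 hm, hx2 m hm hmi]
          · rw [hz1 m hm hmi hmj, hx2 m hm hmi]
      · exact ⟨z, hz, by rw [h1, hx1], by rw [h2, hy1],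
          fun m hm hmi hmj => by rw [hz1 m hm hmi hmj, hx2 m hm hmi]⟩
    have tri : ∀ a ∈ T, ∀ b ∈ T, ∀ c ∈ T, a ≠ b → a ≠ c → b ≠ c → ∀ x ∈ S,
        x a = !e a → x b = !e b → x c = !e c → (∀ m ∈ T, m ≠ a → m ≠ b → m ≠ c → x m = e m) → False := by
      intro a ha b hb c hc hab hac hbc x hx hxa hxb hxc hxm
      obtain ⟨y, hy, hy1, hy2, hy3, hy4⟩ := hQ ((T.erase a).erase b |>.erase c) e a b c
        (by simp) (by simp) (by simp) hab hac hbc (by
        intro a' b' c' hne
        have conv : ∀ y ∈ S, (∀ m ∈ T, m ≠ a → m ≠ b → m ≠ c → y m = e m) → y a = a' → y b = b' →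
            y c = c' → ∃ x ∈ S, (∀ m ∈ (T.erase a).erase b |>.erase c, x m = e m) ∧ x a = a' ∧
              x b = b' ∧ x c = c' := by
          intro y hy h h1 h2 h3
          refine ⟨y, hy, fun m hm => ?_, h1, h2, h3⟩
          simp only [Finset.mem_erase] at hm
          exact h m hm.2.2.2 hm.2.2.1 hm.2.1 hm.1
        rcases Bool.eq_or_eq_not a' (e a) with rfl | rfl <;>
          rcases Bool.eq_or_eq_not b' (e b) with rfl | rfl <;>
          rcases Bool.eq_or_eq_not c' (e c) with rfl | rfl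
        · exact absurd rfl hne
        · obtain ⟨y, hy, h1, h2⟩ := single c hc
          exact conv y hy (fun m hm _ _ h => h2 m hm h) (h2 a ha hac) (h2 b hb hbc) h1
        · obtain ⟨y, hy, h1, h2⟩ := single b hb
          exact conv y hy (fun m hm _ h _ => h2 m hm h) (h2 a ha hab) h1 (h2 c hc hbc.symm)
        · obtain ⟨y, hy, h1, h2, h3⟩ := pair b hb c hc hbc
          exact conv y hy (fun m hm _ h h' => h3 m hm h h') (h3 a ha hab hac) h1 h2
        · obtain ⟨y, hy, h1, h2⟩ := single a ha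
          exact conv y hy (fun m hm h _ _ => h2 m hm h) h1 (h2 b hb hab.symm) (h2 c hc hac.symm)
        · obtain ⟨y, hy, h1, h2, h3⟩ := pair a ha c hc hac
          exact conv y hy (fun m hm h _ h' => h3 m hm h h') h1 (h3 b hb hab.symm hbc) h2
        · obtain ⟨y, hy, h1, h2, h3⟩ := pair a ha b hb hab
          exact conv y hy (fun m hm h h' _ => h3 m hm h h') h1 h2 (h3 c hc hac.symm hbc.symm)
        · exact conv x hx hxm hxa hxb hxc)
      obtain ⟨m, hm, hne⟩ := hno y hy
      apply hne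
      by_cases h1 : m = a
      · subst h1; exact hy2
      by_cases h2 : m = b
      · subst h2; exact hy3
      by_cases h3 : m = c
      · subst h3; exact hy4
      exact hy1 m (by simp [h1, h2, h3, hm])
    have quad : ∀ a ∈ T, ∀ b ∈ T, ∀ c ∈ T, ∀ d ∈ T, a ≠ b → a ≠ c → b ≠ c → a ≠ d → b ≠ d → c ≠ d →
        ∀ x ∈ S, x a = !e a → x b = !e b → x c = !e c → x d = !e d →
        (∀ m ∈ T, m ≠ a → m ≠ b → m ≠ c → m ≠ d → x m = e m) → False := by
      intro a ha b hb c hc d hd hab hac hbc had hbd hcd x hx hxa hxb hxc hxd hxm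
      obtain ⟨y, hy, hya, hyb, hym⟩ := pair a ha b hb hab
      obtain ⟨z, hz, hz1, hz2⟩ := between hS T hx hy hc hcd
        (by rw [hxc, hym c hc hac.symm hbc.symm]; cases e c <;> simp)
        (by rw [hxd, hym d hd had.symm hbd.symm]; cases e d <;> simp)
        (fun m hm hmc hmd => by
          by_cases h1 : m = a
          · subst h1; rw [hxa, hya]
          by_cases h2 : m = b
          · subst h2; rw [hxb, hyb]
          rw [hxm m hm h1 h2 hmc hmd, hym m hm h1 h2])
      have hza : z a = !e a := by rw [hz1 a ha hac had, hxa]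
      have hzb : z b = !e b := by rw [hz1 b hb hbc hbd, hxb]
      rcases hz2 with ⟨h1, h2⟩ | ⟨_, h1, h2⟩
      · -- z c = e c, z d = !e d
        refine tri a ha b hb d hd hab had hbd z hz hza hzb (by rw [h2 hd, hxd]) (fun m hm h3 h4 h5 => ?_)
        by_cases hmc : m = c
        · subst hmc; rw [h1, hym m hm h3 h4]
        · rw [hz1 m hm hmc h5, hxm m hm h3 h4 hmc h5]
      · refine tri a ha b hb c hc hab hac hbc z hz hza hzb (by rw [h1, hxc]) (fun m hm h3 h4 h5 => ?_)
        by_cases hmd : m = d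
        · subst hmd; rw [h2, hym m hm h3 h4]
        · rw [hz1 m hm h5 hmd, hxm m hm h3 h4 h5 hmd]
    -- choose four elements
    have h4 : 4 ≤ T.card := by omega
    obtain ⟨U, hUT, hU⟩ := Finset.exists_subset_card_eq h4
    obtain ⟨a, b, c, d, hab, hac, had, hbc, hbd, hcd, rfl⟩ := Finset.card_eq_four.1 hU
    have ha : a ∈ T := hUT (by simp)
    have hb : b ∈ T := hUT (by simp)
    have hc : c ∈ T := hUT (by simp)
    have hd : d ∈ T := hUT (by simp)
    obtain ⟨y, hy, hy1, hy2, hy3, hy4⟩ := hQ (((T.erase a).erase b |>.erase c).erase d)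
      (fun m => if m = a ∨ m = b ∨ m = c then !e m else e m) a b c
      (by simp) (by simp) (by simp) hab hac hbc (by
      intro a' b' c' hne
      simp only [true_or, or_true, if_true] at hne
      have conv : ∀ y ∈ S, (∀ m ∈ T, m ≠ a → m ≠ b → m ≠ c → m ≠ d → y m = e m) → y a = a' → y b = b' →
          y c = c' → ∃ x ∈ S, (∀ m ∈ ((T.erase a).erase b |>.erase c).erase d,
            x m = if m = a ∨ m = b ∨ m = c then !e m else e m) ∧ x a = a' ∧
            x b = b' ∧ x c = c' := by
        intro y hy h h1 h2 h3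
        refine ⟨y, hy, fun m hm => ?_, h1, h2, h3⟩
        simp only [Finset.mem_erase] at hm
        rw [if_neg (by push Not; exact ⟨hm.2.2.2.1, hm.2.2.1, hm.2.1⟩)]
        exact h m hm.2.2.2.2 hm.2.2.2.1 hm.2.2.1 hm.2.1 hm.1
      rcases Bool.eq_or_eq_not a' (e a) with rfl | rfl <;>
        rcases Bool.eq_or_eq_not b' (e b) with rfl | rfl <;>
        rcases Bool.eq_or_eq_not c' (e c) with rfl | rfl
      · obtain ⟨y, hy, h1, h2⟩ := single d hd
        exact conv y hy (fun m hm _ _ _ h => h2 m hm h) (h2 a ha had) (h2 b hb hbd) (h2 c hc hcd)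
      · obtain ⟨y, hy, h1, h2⟩ := single c hc
        exact conv y hy (fun m hm _ _ h _ => h2 m hm h) (h2 a ha hac) (h2 b hb hbc) h1
      · obtain ⟨y, hy, h1, h2⟩ := single b hb
        exact conv y hy (fun m hm _ h _ _ => h2 m hm h) (h2 a ha hab) h1 (h2 c hc hbc.symm)
      · obtain ⟨y, hy, h1, h2, h3⟩ := pair b hb c hc hbc
        exact conv y hy (fun m hm _ h h' _ => h3 m hm h h') (h3 a ha hab hac) h1 h2
      · obtain ⟨y, hy, h1, h2⟩ := single a ha
        exact conv y hy (fun m hm h _ _ _ => h2 m hm h) h1 (h2 b hb hab.symm) (h2 c hc hac.symm)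
      · obtain ⟨y, hy, h1, h2, h3⟩ := pair a ha c hc hac
        exact conv y hy (fun m hm h _ h' _ => h3 m hm h h') h1 (h3 b hb hab.symm hbc) h2
      · obtain ⟨y, hy, h1, h2, h3⟩ := pair a ha b hb hab
        exact conv y hy (fun m hm h h' _ _ => h3 m hm h h') h1 h2 (h3 c hc hac.symm hbc.symm)
      · exact absurd rfl hne)
    simp only [true_or, or_true, if_true] at hy2 hy3 hy4
    have hyJ : ∀ m ∈ T, m ≠ a → m ≠ b → m ≠ c → m ≠ d → y m = e m := by
      intro m hm h1 h2 h3 h4
      have := hy1 m (by simp [h1, h2, h3, h4, hm])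
      rwa [if_neg (by push Not; exact ⟨h1, h2, h3⟩)] at this
    rcases Bool.eq_or_eq_not (y d) (e d) with hyd | hyd
    · refine tri a ha b hb c hc hab hac hbc y hy hy2 hy3 hy4 (fun m hm h1 h2 h3 => ?_)
      by_cases hmd : m = d
      · subst hmd; exact hyd
      · exact hyJ m hm h1 h2 h3 hmd
    · exact quad a ha b hb c hc d hd hab hac hbc had hbd hcd y hy hy2 hy3 hy4 hyd hyJ

end N431.Hyp
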